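import Pool.Agent.Helper82.SR.Base

set_option autoImplicit false

/-! The theorem of Berman and Hartmanis: length-increasing invertible reductions in both directions
give a p-isomorphism. -/

namespace Pool.Agent.Helper82.SR

open Pool.Agent.Helper58 Pool.Agent.Helper53.CL Pool.Agent.Helper52.Grid Pool.Agent.Helper61.TQ

variable {γ : Type} [Enc γ]

/-- one step backwards; `true` is the side of the domain of `f` -/
def bstp (f g F G : W → W) (s : Bool × W) : Bool × W :=
  if s.1 = true then (if g (G s.2) = s.2 then (false, G s.2) else s)
  else (if f (F s.2) = s.2 then (true, F s.2) else s)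

/-- the side where the backward chain stops -/
def bval (f g F G : W → W) (s : Bool × W) : Bool :=
  ((List.replicate (s.2.length + 1) ()).foldl (fun a _ => bstp f g F G a) s).1

section

variable {f g F G : W → W}

lemma bstp_len (hfl : ∀ x, x.length < (f x).length) (hgl : ∀ x, x.length < (g x).length)
    (s : Bool × W) : bstp f g F G s = s ∨ (bstp f g F G s).2.length < s.2.length := by
  unfold bstp
  split_ifs with h1 h2 h3
  · right
    have := hgl (G s.2)
    rw [h2] at this
    exact this
  · exact Or.inl rfl
  · right
    have := hfl (F s.2)
    rw [h3] at this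
    exact this
  · exact Or.inl rfl

lemma bfix (s : Bool × W) (h : bstp f g F G s = s) (l : List Unit) :
    l.foldl (fun a _ => bstp f g F G a) s = s := by
  induction l with
  | nil => rfl
  | cons u l ih => rw [List.foldl_cons, h]; exact ih

lemma bstable (hfl : ∀ x, x.length < (f x).length) (hgl : ∀ x, x.length < (g x).length) :
    ∀ (n : ℕ) (s : Bool × W) (l l' : List Unit), s.2.length ≤ n → s.2.length < l.length →
      s.2.length < l'.length →
      l.foldl (fun a _ => bstp f g F G a) s = l'.foldl (fun a _ => bstp f g F G a) s := by
  intro n
  induction n with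
  | zero =>
    intro s l l' hs hl hl'
    have h1 : bstp f g F G s = s := by
      rcases bstp_len (f := f) (g := g) (F := F) (G := G) hfl hgl s with h | h
      · exact h
      · omega
    rw [bfix s h1, bfix s h1]
  | succ n ih =>
    intro s l l' hs hl hl'
    rcases bstp_len (f := f) (g := g) (F := F) (G := G) hfl hgl s with h | h
    · rw [bfix s h, bfix s h]
    · cases l with
      | nil => simp at hl
      | cons u l =>
        cases l' with
        | nil => simp at hl'
        | cons u' l' =>
          rw [List.foldl_cons, List.foldl_cons]
          rw [List.length_cons] at hl hl'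
          exact ih _ _ _ (by omega) (by omega) (by omega)

lemma bval_step (hfl : ∀ x, x.length < (f x).length) (hgl : ∀ x, x.length < (g x).length)
    (s : Bool × W) : bval f g F G s = bval f g F G (bstp f g F G s) := by
  unfold bval
  rcases bstp_len (f := f) (g := g) (F := F) (G := G) hfl hgl s with h | h
  · rw [h]
  · congr 1
    rw [List.replicate_succ, List.foldl_cons]
    exact bstable hfl hgl _ _ _ _ le_rfl (by simp; omega) (by simp)

lemma blen_fold (hfl : ∀ x, x.length < (f x).length) (hgl : ∀ x, x.length < (g x).length)
    (l : List Unit) : ∀ s : Bool × W,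
      (l.foldl (fun a _ => bstp f g F G a) s).2.length ≤ s.2.length := by
  induction l with
  | nil => intro s; exact le_rfl
  | cons u l ih =>
    intro s
    rw [List.foldl_cons]
    refine (ih _).trans ?_
    rcases bstp_len (f := f) (g := g) (F := F) (G := G) hfl hgl s with h | h
    · rw [h]
    · exact h.le

theorem ptf_bval (hf : PTf f) (hg : PTf g) (hF : PTf F) (hG : PTf G)
    (hfl : ∀ x, x.length < (f x).length) (hgl : ∀ x, x.length < (g x).length) :
    PTf (bval f g F G) := by
  have h1 : PTf (fun s : Bool × W => bstp f g F G s) := by
    have hb : ∀ s : Bool × W, bstp f g F G s = (bif s.1 then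
      (if g (G s.2) = s.2 then (false, G s.2) else s) else
      (if f (F s.2) = s.2 then (true, F s.2) else s)) := by
      rintro ⟨b, z⟩
      cases b <;> rfl
    have h2 : PTf (fun s : Bool × W => (bif s.1 then
      (if g (G s.2) = s.2 then (false, G s.2) else s) else
      (if f (F s.2) = s.2 then (true, F s.2) else s))) := by fun_prop
    exact h2.congr hb
  unfold bval
  refine PTf.fst (PTf.foldl (l := fun s : Bool × W => List.replicate (s.2.length + 1) ())
    (init := fun s => s) (step := fun _ a _ => bstp f g F G a)
    (B := fun s => 4 * s.2.length + 5) (by fun_prop) (by fun_prop)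
    (PTf.comp h1 (by fun_prop : PTf (fun p : (Bool × W) × ((Bool × W) × Unit) => p.2.1))) ?_ ?_)
  · have h3 : PTf (fun s : Bool × W => 4 * s.2.length + 5) := by fun_prop
    exact h3.sz_le.mono (fun s => by rw [sz_nat]; omega)
  · intro s i
    have h3 := blen_fold (f := f) (g := g) (F := F) (G := G) hfl hgl
      ((List.replicate (s.2.length + 1) ()).take i) s
    have h4 := sz_bits_le (((List.replicate (s.2.length + 1) ()).take i).foldl
      (fun a _ => bstp f g F G a) s).2
    have h5 := sz_bool (((List.replicate (s.2.length + 1) ()).take i).foldl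
      (fun a _ => bstp f g F G a) s).1
    rw [sz_prod]
    omega

end

/-- the isomorphism -/
def bh (f g F G : W → W) (x : W) : W := if bval f g F G (true, x) = true then f x else G x

/-- its inverse -/
def bk (f g F G : W → W) (y : W) : W := if bval f g F G (false, y) = true then F y else g y

/-- **Berman, Hartmanis.** -/
theorem berman_hartmanis {A B : Set W} {f g F G : W → W} (hf : PTf f) (hg : PTf g) (hF : PTf F)
    (hG : PTf G) (hFf : ∀ x, F (f x) = x) (hGg : ∀ y, G (g y) = y)
    (hfl : ∀ x, x.length < (f x).length) (hgl : ∀ x, x.length < (g x).length)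
    (hfA : ∀ x, x ∈ A ↔ f x ∈ B) (hgB : ∀ y, y ∈ B ↔ g y ∈ A) : PIso A B := by
  have hbv := ptf_bval hf hg hF hG hfl hgl
  have e1 : ∀ x, bval f g F G (false, f x) = bval f g F G (true, x) := by
    intro x
    rw [bval_step hfl hgl]
    congr 1
    unfold bstp
    simp only [Bool.false_eq_true, if_false]
    rw [hFf, if_pos rfl]
  have e2 : ∀ y, bval f g F G (true, g y) = bval f g F G (false, y) := by
    intro y
    rw [bval_step hfl hgl]
    congr 1
    unfold bstp
    simp only [if_true]
    rw [hGg, if_pos rfl]
  have e3 : ∀ x, bval f g F G (true, x) ≠ true → g (G x) = x := by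
    intro x hx
    by_contra h
    apply hx
    unfold bval
    have h1 : bstp f g F G (true, x) = (true, x) := by
      unfold bstp
      simp only [if_true]
      rw [if_neg h]
    rw [bfix _ h1]
  have e4 : ∀ y, bval f g F G (false, y) = true → f (F y) = y := by
    intro y hy
    by_contra h
    have h1 : bstp f g F G (false, y) = (false, y) := by
      unfold bstp
      simp only [Bool.false_eq_true, if_false]
      rw [if_neg h]
    unfold bval at hy
    rw [bfix _ h1] at hy
    exact absurd hy (by simp)
  have l1 : ∀ x, bk f g F G (bh f g F G x) = x := by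
    intro x
    unfold bh
    split_ifs with h
    · unfold bk
      rw [e1, if_pos h, hFf]
    · unfold bk
      have h2 := e2 (G x)
      rw [e3 x h] at h2
      rw [← h2, if_neg h, e3 x h]
  have l2 : ∀ y, bh f g F G (bk f g F G y) = y := by
    intro y
    unfold bk
    split_ifs with h
    · unfold bh
      have h2 := e1 (F y)
      rw [e4 y h] at h2
      rw [← h2, if_pos h, e4 y h]
    · unfold bh
      rw [e2, if_neg h, hGg]
  refine ⟨⟨bh f g F G, bk f g F G, l1, l2⟩, (cls_fun _).2 ?_, (cls_fun _).2 ?_, fun x => ?_⟩
  · show PTf (fun x => bh f g F G x)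
    unfold bh
    have h1 : PTf (fun x : W => bval f g F G (true, x)) := PTf.comp hbv (by fun_prop)
    fun_prop
  · show PTf (fun x => bk f g F G x)
    unfold bk
    have h1 : PTf (fun x : W => bval f g F G (false, x)) := PTf.comp hbv (by fun_prop)
    fun_prop
  · show x ∈ A ↔ bh f g F G x ∈ B
    unfold bh
    split_ifs with h
    · exact hfA x
    · rw [hgB, e3 x h]

end Pool.Agent.Helper82.SR
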