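import Pool.Agent.Helper82.SR.Defs
import Pool.Agent.Helper23.TQ.CLS

set_option autoImplicit false

/-! Lengths, padding. -/

namespace Pool.Agent.Helper82.SR

open Pool.Agent.Helper58 Pool.Agent.Helper53.CL Pool.Agent.Helper52.Grid Pool.Agent.Helper61.TQ

variable {α β γ : Type} [Enc α] [Enc β] [Enc γ]

/-! ### lengths -/

/-- taking powers until `m` is reached -/
def nstep (c m a : ℕ) : ℕ := if a < m then a ^ (c + 2) else a

/-- the least `2 ^ (c + 2) ^ i` which is at least `m` -/
def nlen (c m : ℕ) : ℕ := (List.replicate m ()).foldl (fun a _ => nstep c m a) 2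

lemma nfold_bound (c m : ℕ) : ∀ (l : List Unit) (a : ℕ), a ≤ 2 + m ^ (c + 2) →
    l.foldl (fun a _ => nstep c m a) a ≤ 2 + m ^ (c + 2) := by
  intro l
  induction l with
  | nil => intro a ha; simpa using ha
  | cons u l ih =>
    intro a ha
    rw [List.foldl_cons]
    apply ih
    unfold nstep
    split_ifs with h
    · have : a ^ (c + 2) ≤ m ^ (c + 2) := Nat.pow_le_pow_left h.le _
      omega
    · exact ha

lemma ptf_nstep (c : ℕ) {m a : γ → ℕ} (hm : PTf m) (ha : PTf a) :
    PTf (fun x => nstep c (m x) (a x)) := by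
  have h := ptf_pow ha (c + 2)
  unfold nstep
  fun_prop

@[fun_prop] theorem ptf_nlen (c : ℕ) {m : γ → ℕ} (hm : PTf m) : PTf (fun x => nlen c (m x)) := by
  have hpw : PTf (fun x => m x ^ (c + 2)) := ptf_pow hm _
  unfold nlen
  refine PTf.foldl (l := fun x => List.replicate (m x) ()) (init := fun _ => 2)
    (step := fun x a _ => nstep c (m x) a) (B := fun x => sz (2 + m x ^ (c + 2))) (by fun_prop)
    (by fun_prop) (ptf_nstep c (by fun_prop) (by fun_prop)) ?_ ?_
  · exact PTf.sz_le (f := fun x => 2 + m x ^ (c + 2)) (by fun_prop)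
  · intro x i
    have := nfold_bound c (m x) ((List.replicate (m x) ()).take i) 2 (by omega)
    rw [sz_nat, sz_nat]
    omega

lemma nlen_le (c m : ℕ) : nlen c m ≤ 2 + m ^ (c + 2) := nfold_bound c m _ 2 (by omega)

lemma nfold_ge (c m : ℕ) : ∀ (l : List Unit) (a : ℕ), 2 ≤ a → m ≤ a + l.length →
    m ≤ l.foldl (fun a _ => nstep c m a) a := by
  intro l
  induction l with
  | nil => intro a _ h; simpa using h
  | cons u l ih =>
    intro a ha h
    rw [List.foldl_cons]
    rw [List.length_cons] at h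
    unfold nstep
    split_ifs with h1
    · have h2 : a * 2 ≤ a * a := Nat.mul_le_mul_left _ ha
      have h3 : a ^ 2 ≤ a ^ (c + 2) := Nat.pow_le_pow_right (by omega) (by omega)
      have h4 : a ^ 2 = a * a := pow_two a
      exact ih _ (by omega) (by omega)
    · exact ih _ ha (by omega)

lemma le_nlen (c m : ℕ) : m ≤ nlen c m := nfold_ge c m _ 2 le_rfl (by simp)

lemma pow_step (c i : ℕ) : (2 ^ (c + 2) ^ i) ^ (c + 2) = 2 ^ (c + 2) ^ (i + 1) := by
  rw [← pow_mul, ← pow_succ]

lemma nfold_pow (c m : ℕ) : ∀ (l : List Unit) (i : ℕ),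
    ∃ j, l.foldl (fun a _ => nstep c m a) (2 ^ (c + 2) ^ i) = 2 ^ (c + 2) ^ j ∧
      (i = j ∨ 2 ^ (c + 2) ^ (j - 1) < m) := by
  intro l
  induction l with
  | nil => intro i; exact ⟨i, rfl, Or.inl rfl⟩
  | cons u l ih =>
    intro i
    rw [List.foldl_cons]
    unfold nstep
    split_ifs with h1
    · rw [pow_step]
      obtain ⟨j, hj, h⟩ := ih (i + 1)
      refine ⟨j, hj, ?_⟩
      rcases h with h | h
      · right
        subst h
        simpa using h1
      · exact Or.inr h
    · exact ih i

/-- the special lengths -/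
def Good (c n : ℕ) : Prop := ∃ i : ℕ, n = 2 ^ (c + 2) ^ i

lemma nlen_good (c m : ℕ) : Good c (nlen c m) := by
  obtain ⟨j, hj, _⟩ := nfold_pow c m (List.replicate m ()) 0
  exact ⟨j, by simpa [nlen] using hj⟩

lemma pp_le {c i j : ℕ} (h : 2 ^ (c + 2) ^ i ≤ 2 ^ (c + 2) ^ j) : i ≤ j := by
  have := (Nat.pow_le_pow_iff_right (by norm_num : 1 < 2)).1 h
  exact (Nat.pow_le_pow_iff_right (by omega : 1 < c + 2)).1 this

lemma pp_lt {c i j : ℕ} (h : 2 ^ (c + 2) ^ i < 2 ^ (c + 2) ^ j) : i < j := by
  have := (Nat.pow_lt_pow_iff_right (by norm_num : 1 < 2)).1 h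
  exact (Nat.pow_lt_pow_iff_right (by omega : 1 < c + 2)).1 this

lemma nlen_of_good {c n : ℕ} (h : Good c n) : nlen c n = n := by
  obtain ⟨i, rfl⟩ := h
  obtain ⟨j, hj, h⟩ := nfold_pow c (2 ^ (c + 2) ^ i) (List.replicate (2 ^ (c + 2) ^ i) ()) 0
  have h1 : nlen c (2 ^ (c + 2) ^ i) = 2 ^ (c + 2) ^ j := by simpa [nlen] using hj
  have h2 := le_nlen c (2 ^ (c + 2) ^ i)
  rw [h1] at h2 ⊢
  have h3 : i ≤ j := pp_le h2
  rcases h with h | h
  · have : i = 0 := by omega
    subst this
    rw [h]
  · have h5 := pp_lt h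
    have : i = j := by omega
    rw [this]

/-- test for special lengths -/
def goodB (c n : ℕ) : Bool := decide (nlen c n = n)

lemma goodB_iff (c n : ℕ) : goodB c n = true ↔ Good c n := by
  unfold goodB
  rw [decide_eq_true_eq]
  constructor
  · intro h
    rw [← h]
    exact nlen_good c n
  · exact nlen_of_good

@[fun_prop] theorem ptf_goodB (c : ℕ) {m : γ → ℕ} (hm : PTf m) : PTf (fun x => goodB c (m x)) := by
  unfold goodB
  fun_prop

lemma good_pos {c n : ℕ} (h : Good c n) : 2 ≤ n := by
  obtain ⟨i, rfl⟩ := h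
  have h1 : 1 ≤ (c + 2) ^ i := Nat.one_le_pow _ _ (by omega)
  calc 2 = 2 ^ 1 := by norm_num
    _ ≤ 2 ^ (c + 2) ^ i := Nat.pow_le_pow_right (by norm_num) h1

lemma good_pow {c m n : ℕ} (hm : Good c m) (hn : Good c n) (h : m < n) : m ^ (c + 2) ≤ n := by
  obtain ⟨i, rfl⟩ := hm
  obtain ⟨j, rfl⟩ := hn
  have h2 := pp_lt h
  rw [pow_step]
  exact Nat.pow_le_pow_right (by norm_num) (Nat.pow_le_pow_right (by omega) (by omega))

lemma sq_le_pow (c m : ℕ) (hm : 1 ≤ m) : m * m ≤ m ^ (c + 2) := by
  rw [← pow_two]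
  exact Nat.pow_le_pow_right hm (by omega)

lemma good_sq {c m n : ℕ} (hm : Good c m) (hn : Good c n) (h : m < n) : m * m ≤ n :=
  (sq_le_pow c m (by have := good_pos hm; omega)).trans (good_pow hm hn h)

/-- there are no special lengths just above a special length -/
lemma good_gap {c m n : ℕ} (hm : Good c m) (hn : Good c n) (h : m < n) : m ^ c + c < n := by
  refine lt_of_lt_of_le ?_ (good_pow hm hn h)
  have h1 := good_pos hm
  have h2 : m ^ (c + 2) = m ^ c * (m * m) := by ring
  have h3 : m ^ c * (2 * 2) ≤ m ^ c * (m * m) := Nat.mul_le_mul_left _ (Nat.mul_le_mul h1 h1)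
  have h4 : c < 2 ^ c := Nat.lt_two_pow_self
  have h5 : 2 ^ c ≤ m ^ c := Nat.pow_le_pow_left h1 _
  omega

/-! ### padding -/

/-- pad `w` to the length `n` -/
def pad (n : ℕ) (w : List Bool) : List Bool := w ++ true :: List.replicate (n - w.length - 1) false

lemma pad_length {n : ℕ} {w : List Bool} (h : w.length < n) : (pad n w).length = n := by
  simp [pad]; omega

@[fun_prop] theorem ptf_pad {n : γ → ℕ} {w : γ → List Bool} (hn : PTf n) (hw : PTf w) :
    PTf (fun x => pad (n x) (w x)) := by
  unfold pad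
  fun_prop

/-- remove leading `false`s and the first `true` -/
def unp (s : List Bool) : List Bool := (s.foldl (fun (p : Bool × List Bool) b =>
  if p.1 then (true, p.2 ++ [b]) else (b, p.2)) (false, [])).2

lemma unp_true (s : List Bool) (u : List Bool) : (s.foldl (fun (p : Bool × List Bool) b =>
    if p.1 then (true, p.2 ++ [b]) else (b, p.2)) (true, u)) = (true, u ++ s) := by
  induction s generalizing u with
  | nil => simp
  | cons b s ih => rw [List.foldl_cons]; simp only [if_true]; rw [ih]; simp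

lemma unp_pad (k : ℕ) (s : List Bool) : unp (List.replicate k false ++ true :: s) = s := by
  induction k with
  | zero =>
    unfold unp
    rw [List.replicate_zero, List.nil_append, List.foldl_cons]
    simp only [Bool.false_eq_true, if_false]
    rw [unp_true]
    simp
  | succ k ih =>
    unfold unp at ih ⊢
    rw [List.replicate_succ, List.cons_append, List.foldl_cons]
    simp only [Bool.false_eq_true, if_false]
    exact ih

@[fun_prop] theorem ptf_unp {w : γ → List Bool} (hw : PTf w) : PTf (fun x => unp (w x)) := by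
  unfold unp
  refine PTf.snd (ptf_foldl_add (l := w) (init := fun _ => (false, ([] : List Bool)))
    (step := fun _ (p : Bool × List Bool) b => if p.1 then (true, p.2 ++ [b]) else (b, p.2))
    (K := fun _ => 10) hw (by fun_prop) (by fun_prop) (PB.const _) ?_)
  rintro x ⟨p, u⟩ b -
  have h1 := sz_append u [b]
  rw [sz_lcons, sz_lnil] at h1
  have h2 := sz_bool b
  have h3 := sz_pos p
  have h4 := sz_bool p
  have h5 := sz_bool true
  cases p
  · simp only [Bool.false_eq_true, if_false]
    rw [sz_pair, sz_pair]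
    omega
  · simp only [if_true]
    rw [sz_pair, sz_pair]
    omega

/-- inverse of padding -/
def unpad (s : List Bool) : List Bool := (unp s.reverse).reverse

@[fun_prop] theorem ptf_unpad {w : γ → List Bool} (hw : PTf w) : PTf (fun x => unpad (w x)) := by
  unfold unpad
  fun_prop

lemma unpad_pad (n : ℕ) (w : List Bool) : unpad (pad n w) = w := by
  unfold unpad pad
  rw [List.reverse_append, List.reverse_cons, List.reverse_replicate, List.append_assoc,
    List.singleton_append, unp_pad, List.reverse_reverse]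

end Pool.Agent.Helper82.SR
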