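import Pool.Agent.Helper82.SR.Prog
import Pool.Agent.Helper53.CL.CspP

set_option autoImplicit false

/-! Programs as words. -/

namespace Pool.Agent.Helper82.SR

open Pool.Agent.Helper58 Pool.Agent.Helper53.CL Pool.Agent.Helper52.Grid Pool.Agent.Helper61.TQ

/-- write a list of lists of numbers -/
def ser (l : List (List ℕ)) : List ℕ := l.flatMap (fun m => m.map (fun a => a + 1) ++ [0])

/-- step of reading -/
def desS (s : List ℕ × List (List ℕ)) (a : ℕ) : List ℕ × List (List ℕ) :=
  ncase a ([], s.2 ++ [s.1]) (fun n => (s.1 ++ [n], s.2))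

/-- read a list of lists of numbers -/
def des (w : List ℕ) : List (List ℕ) := (w.foldl desS ([], [])).2

lemma des_aux (m u : List ℕ) (v : List (List ℕ)) :
    (m.map (fun a => a + 1)).foldl desS (u, v) = (u ++ m, v) := by
  induction m generalizing u with
  | nil => simp
  | cons a m ih =>
    rw [List.map_cons, List.foldl_cons]
    have h : desS (u, v) (a + 1) = (u ++ [a], v) := rfl
    rw [h, ih]
    simp

lemma des_ser (l : List (List ℕ)) : des (ser l) = l := by
  have key : ∀ (l v : List (List ℕ)), (ser l).foldl desS ([], v) = ([], v ++ l) := by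
    intro l
    induction l with
    | nil => intro v; simp [ser]
    | cons m l ih =>
      intro v
      have e : ser (m :: l) = (m.map (fun a => a + 1) ++ [0]) ++ ser l := by simp [ser]
      rw [e, List.foldl_append, List.foldl_append, des_aux]
      have h : [0].foldl desS ([] ++ m, v) = ([], v ++ [m]) := rfl
      rw [h, ih]
      simp
  unfold des
  rw [key]
  simp

theorem ptf_des {γ : Type} [Enc γ] {l : γ → List ℕ} (hl : PTf l) : PTf (fun x => des (l x)) := by
  unfold des
  have h := ptf_foldl_add (γ := γ) (l := l) (init := fun _ => (([] : List ℕ), ([] : List (List ℕ))))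
    (step := fun _ s a => desS s a) (K := fun x => sz (l x) + 10) hl (PTf.const _)
    (by unfold desS; fun_prop) (hl.sz_le.add (PB.const _)) ?_
  · exact PTf.snd h
  · rintro x ⟨u, v⟩ a ha
    have h0 := sz_mem_le (l x) a ha
    cases a with
    | zero =>
      show sz (([] : List ℕ), v ++ [u]) ≤ _
      have h1 := sz_append v [u]
      rw [sz_lcons, sz_lnil] at h1
      rw [sz_pair, sz_pair, sz_lnil]
      omega
    | succ n =>
      show sz (u ++ [n], v) ≤ _
      have h1 := sz_append u [n]
      rw [sz_lcons, sz_lnil] at h1
      have h2 : sz (n + 1) = sz n + 2 := sz_succ n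
      rw [sz_pair, sz_pair]
      omega

/-- read a program -/
def dec (w : W) : Prg := (des (un w)).map des

/-- write a program -/
def enp (P : Prg) : W := wr (ser (P.map ser))

theorem dec_enp (P : Prg) : dec (enp P) = P := by
  unfold dec enp
  rw [un_wr, des_ser, List.map_map]
  have : des ∘ ser = id := funext des_ser
  rw [this, List.map_id]

@[fun_prop] theorem ptf_dec {γ : Type} [Enc γ] {w : γ → W} (hw : PTf w) :
    PTf (fun x => dec (w x)) := by
  have h1 : PTf (fun x => des (un (w x))) := ptf_des (ptf_un hw)
  have h2 : PTf (fun p : γ × List ℕ => des p.2) := ptf_des (by fun_prop)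
  unfold dec
  fun_prop

end Pool.Agent.Helper82.SR
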