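import Pool.Agent.Helper82.SR.Sim2

set_option autoImplicit false

/-! If a machine reduces a sparse set to itself then the evaluation of its program decides the set. -/

namespace Pool.Agent.Helper82.SR

open Turing Function
open Pool.Agent.Helper58 Pool.Agent.Helper53.CL Pool.Agent.Helper52.Grid Pool.Agent.Helper61.TQ

/-- the advice words for the special lengths up to `N` -/
def atab (g : ℕ) (a : ℕ → W) (N : ℕ) : List (List ℕ) :=
  ((List.range (N + 1)).filter (goodB g)).map (fun n => (a n).map bit)

lemma atab_getD (g : ℕ) (a : ℕ → W) {n N : ℕ} (hn : Good g n) (h : n ≤ N) :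
    (atab g a N).getD (lvl g n) [] = (a n).map bit := by
  obtain ⟨m, rfl⟩ : ∃ m, N = n + m := ⟨N - n, by omega⟩
  have h1 : List.range (n + m + 1) = List.range n ++ (List.range (m + 1)).map (fun i => n + i) := by
    rw [add_assoc, List.range_add]
  have h2 : (List.range (m + 1)).map (fun i => n + i) =
      n :: (List.range m).map (fun i => n + (i + 1)) := by
    rw [List.range_succ_eq_map, List.map_cons, List.map_map]
    rfl
  unfold atab
  rw [h1, h2, List.filter_append, List.map_append, List.filter_cons, (goodB_iff g n).2 hn]
  simp only [if_true, List.map_cons]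
  have h3 : lvl g n = (((List.range n).filter (goodB g)).map (fun n => (a n).map bit)).length := by
    rw [List.length_map]
    rfl
  rw [List.getD_append_right _ _ _ _ (by omega), h3, Nat.sub_self]
  rfl

lemma after_succ (M : OTM) (A : Set W) (x a : W) (n : ℕ) :
    M.after A x a (n + 1) = (M.after A x a n).bind (M.step A) := by
  unfold OTM.after
  rw [Function.iterate_succ_apply']

lemma after_none (M : OTM) (A : Set W) (x a : W) (n d : ℕ) (h : M.after A x a n = none) :
    M.after A x a (n + d) = none := by
  induction d with
  | zero => exact h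
  | succ d ih => rw [← add_assoc, after_succ, ih]; rfl

lemma run_corr (g : ℕ) (M : OTM) (tb : List (List ℕ)) (A : Set W) (O : W → Bool) (x a : W)
    (hA : ∀ w ∈ A, Good g w.length)
    (hO : ∀ w : W, Good g w.length → w.length < x.length → (O w = true ↔ w ∈ A))
    (hx : Good g x.length)
    (hq : ∀ n c, M.after A x a n = some c → M.Asks c →
      (M.word c).length ≠ x.length ∧ (M.word c).length ≤ x.length ^ g + g)
    (n : ℕ) (c : M.Cfg) (hc : M.after A x a n = some c) (hl : c.l = none) :
    ∀ (d i : ℕ), i + d = n → ∀ ci, M.after A x a i = some ci → ∀ k, d + 1 ≤ k →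
      run g O (prog M tb) x.length k (cf M ci) = M.acc c.var := by
  intro d
  induction d with
  | zero =>
    intro i hi ci hci k hk
    have hi' : i = n := by omega
    rw [hi', hc] at hci
    have hcc : c = ci := Option.some.inj hci
    subst hcc
    obtain ⟨k', rfl⟩ : ∃ k', k = k' + 1 := ⟨k - 1, by omega⟩
    have hs2 := mem_seg2 M tb (c.l, c.var)
    have hs3 := mem_seg3 M tb (c.l, c.var)
    show (bif memB (cd (c.l, c.var)) (seg (prog M tb) 2) then true else
      bif memB (cd (c.l, c.var)) (seg (prog M tb) 3) then false else _) = _
    cases hacc : M.acc c.var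
    · have h2 : memB (cd (c.l, c.var)) (seg (prog M tb) 2) = false := by
        rw [← Bool.not_eq_true, hs2]
        simp [hacc]
      have h3 : memB (cd (c.l, c.var)) (seg (prog M tb) 3) = true := hs3.2 ⟨hl, hacc⟩
      rw [h2, h3]
      rfl
    · have h2 : memB (cd (c.l, c.var)) (seg (prog M tb) 2) = true := hs2.2 ⟨hl, hacc⟩
      rw [h2]
      rfl
  | succ d ih =>
    intro i hi ci hci k hk
    have h1 : M.after A x a (i + 1) = M.step A ci := by
      rw [after_succ, hci]
      rfl
    obtain ⟨l, hcl⟩ : ∃ l, ci.l = some l := by
      cases hcl : ci.l with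
      | some l => exact ⟨l, rfl⟩
      | none =>
        exfalso
        have h2 : M.step A ci = none := by
          obtain ⟨l, v, S⟩ := ci
          simp only at hcl
          subst hcl
          rfl
        rw [h2] at h1
        have h3 := after_none M A x a (i + 1) d h1
        rw [show i + 1 + d = n by omega, hc] at h3
        simp at h3
    classical
    have h2 : M.step A ci = some (TM2.stepAux (M.m l (decide (M.word ci ∈ A))) ci.var ci.stk) := by
      have e : ∀ c' : M.Cfg, c'.l = some l → TM2.step (fun l => M.m l (decide (M.word ci ∈ A))) c' =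
          some (TM2.stepAux (M.m l (decide (M.word ci ∈ A))) c'.var c'.stk) := by
        rintro ⟨l', v, S⟩ h
        simp only at h
        subst h
        rfl
      have h4 := e ci hcl
      unfold OTM.step
      convert h4
    obtain ⟨k', rfl⟩ : ∃ k', k = k' + 1 := ⟨k - 1, by omega⟩
    have hs2 := mem_seg2 M tb (ci.l, ci.var)
    have hs3 := mem_seg3 M tb (ci.l, ci.var)
    have e2 : memB (cd (ci.l, ci.var)) (seg (prog M tb) 2) = false := by
      rw [← Bool.not_eq_true, hs2]
      simp [hcl]
    have e3 : memB (cd (ci.l, ci.var)) (seg (prog M tb) 3) = false := by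
      rw [← Bool.not_eq_true, hs3]
      simp [hcl]
    show (bif memB (cd (ci.l, ci.var)) (seg (prog M tb) 2) then true else
      bif memB (cd (ci.l, ci.var)) (seg (prog M tb) 3) then false else
      run g O (prog M tb) x.length k' (stp (prog M tb)
        (bif oans g O (prog M tb) x.length (cf M ci) then 1 else 0) (cf M ci))) = _
    rw [e2, e3]
    simp only [cond_false]
    have hqw : qw (prog M tb) (cf M ci).2 = M.word ci := qw_prog M tb ci
    have hm : M.m l (oans g O (prog M tb) x.length (cf M ci)) = M.m l (decide (M.word ci ∈ A)) := by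
      by_cases hne : M.m l true = M.m l false
      · have e : ∀ b b' : Bool, M.m l b = M.m l b' := by
          intro b b'
          cases b <;> cases b' <;> simp [hne]
        exact e _ _
      · have hask : M.Asks ci := ⟨l, hcl, hne⟩
        obtain ⟨hlen1, hlen2⟩ := hq i ci hci hask
        congr 1
        have h4 : memB (cf M ci).1 (seg (prog M tb) 1) = true :=
          (mem_seg1 M tb (ci.l, ci.var)).2 ⟨l, hcl, hne⟩
        unfold oans ask
        rw [hqw, h4]
        by_cases hlen : (M.word ci).length < x.length
        swap
        · have h5 : decide ((M.word ci).length < x.length) = false := by simpa using hlen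
          have h8 : ¬ (M.word ci ∈ A) := by
            intro hw
            have h9 := good_gap hx (hA _ hw) (by omega)
            omega
          rw [h5]
          simp [h8]
        have h5 : decide ((M.word ci).length < x.length) = true := by simpa using hlen
        have h6 : decide ((M.word ci).length ≤ x.length) = true := by
          simpa using hlen.le
        rw [h5, h6]
        simp only [Bool.true_and]
        by_cases hg : Good g (M.word ci).length
        · rw [(goodB_iff _ _).2 hg]
          simp only [Bool.true_and]
          have h7 := hO _ hg hlen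
          cases hOw : O (M.word ci)
          · have : ¬ (M.word ci ∈ A) := by
              intro hw
              have := h7.2 hw
              rw [hOw] at this
              simp at this
            simp [this]
          · have := h7.1 hOw
            simp [this]
        · have h7 : goodB g (M.word ci).length = false := by
            rw [← Bool.not_eq_true, goodB_iff]
            exact hg
          have h8 : ¬ (M.word ci ∈ A) := fun hw => hg (hA _ hw)
          rw [h7]
          simp [h8]
    have hst : stp (prog M tb) (bif oans g O (prog M tb) x.length (cf M ci) then 1 else 0) (cf M ci) =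
        cf M (TM2.stepAux (M.m l (decide (M.word ci ∈ A))) ci.var ci.stk) := by
      rw [← hm]
      have h4 := stp_prog M tb (oans g O (prog M tb) x.length (cf M ci)) l ci.var ci.stk
      rw [← h4]
      have h5 : (⟨some l, ci.var, ci.stk⟩ : M.Cfg) = ci := by
        obtain ⟨l', v, S⟩ := ci
        simp only at hcl
        rw [hcl]
      rw [h5]
      rfl
    rw [hst]
    refine ih (i + 1) (by omega) _ ?_ k' (by omega)
    rw [h1, h2]

lemma time_le (k : ℕ) {n : ℕ} (hn : 2 ≤ n) : n ^ k + k + 1 ≤ n ^ (2 * k + 2) := by
  have h1 : n ^ (2 * k + 2) = n ^ k * n ^ (k + 2) := by rw [← pow_add]; congr 1; ring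
  have h2 : k + 2 < 2 ^ (k + 2) := Nat.lt_two_pow_self
  have h3 : 2 ^ (k + 2) ≤ n ^ (k + 2) := Nat.pow_le_pow_left hn _
  have h4 : 1 ≤ n ^ k := Nat.one_le_pow _ _ (by omega)
  have h5 : n ^ k * (k + 2) ≤ n ^ k * n ^ (k + 2) := Nat.mul_le_mul_left _ (by omega)
  have h6 : n ^ k * (k + 2) = n ^ k + n ^ k * (k + 1) := by ring
  have h7 : 1 * (k + 1) ≤ n ^ k * (k + 1) := Nat.mul_le_mul_right _ h4
  omega

/-- the evaluation decides the set -/
theorem EV_corr (g k : ℕ) (A : Set W) (hA : ∀ w ∈ A, Good g w.length) (M : OTM) (a : ℕ → W)
    (hM : ∀ x : W, (∃ n ≤ x.length ^ k + k, ∃ c, M.after A x (a x.length) n = some c ∧ c.l = none ∧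
      (M.acc c.var = true ↔ x ∈ A)) ∧
      ∀ n c, M.after A x (a x.length) n = some c → M.Asks c →
        (M.word c).length ≠ x.length ∧ (M.word c).length ≤ x.length ^ g + g)
    (N : ℕ) : ∀ (m : ℕ) (x : W), x.length ≤ m → x.length ≤ N → Good g x.length →
      (EV g (2 * k + 2) (prog M (atab g a N)) x = true ↔ x ∈ A) := by
  intro m
  induction m with
  | zero =>
    intro x hx _ hg
    have := good_pos hg
    omega
  | succ m ih =>
    intro x hx hN hg
    obtain ⟨⟨n, hn, c, hc, hl, hacc⟩, hq⟩ := hM x
    have hO : ∀ w : W, Good g w.length → w.length < x.length →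
        (EV g (2 * k + 2) (prog M (atab g a N)) w = true ↔ w ∈ A) := fun w hw hlt =>
      ih w (by omega) (by omega) hw
    rw [EV_eq g (by omega) _ hg, ini_prog M (atab g a N) g x (a x.length) (atab_getD g a hg hN),
      run_corr g M (atab g a N) A _ x (a x.length) hA hO hg hq n c hc hl n 0 (by omega)
        (M.init x (a x.length)) rfl (x.length ^ (2 * k + 2)) ?_]
    · exact hacc
    · have := time_le k (good_pos hg)
      omega

end Pool.Agent.Helper82.SR
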