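import Mathlib
import Pool.Agent.Helper61.TQ.Defs

set_option autoImplicit false

/-! Self-reducibility of NP-complete sets: statement-level definitions. -/

namespace Pool.Agent.Helper82.SR

open Turing Pool.Agent.Helper53.CL Pool.Agent.Helper61.TQ

/-- Deterministic oracle machines: Mathlib's machines `TM2` with finitely many stacks (tapes), in
which the statement executed at a label may depend on whether the word on the query stack belongs
to the oracle. `inp` is the input stack, `adv` the advice stack, `qry` the query stack. -/
structure OTM where
  K : Type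
  [decK : DecidableEq K]
  [finK : Fintype K]
  Γ : K → Type
  [finΓ : ∀ k, Fintype (Γ k)]
  Λ : Type
  [finΛ : Fintype Λ]
  σ : Type
  [finσ : Fintype σ]
  inp : K
  inpΓ : Γ inp ≃ Bool
  adv : K
  advΓ : Γ adv ≃ Bool
  adv_ne : adv ≠ inp
  qry : K
  qryΓ : Γ qry ≃ Bool
  main : Λ
  start : σ
  /-- `m l true` is executed at the label `l` if the query word is in the oracle, otherwise
  `m l false` -/
  m : Λ → Bool → TM2.Stmt Γ Λ σ
  /-- a halted machine has accepted if `acc` of its internal state is `true` -/
  acc : σ → Bool

namespace OTM

attribute [instance] OTM.decK OTM.finK OTM.finΓ OTM.finΛ OTM.finσ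

variable (M : OTM)

/-- configurations: label (`none` if halted), internal state, stacks -/
abbrev Cfg : Type := TM2.Cfg M.Γ M.Λ M.σ

/-- the query word -/
def word (c : M.Cfg) : List Bool := (c.stk M.qry).map M.qryΓ

/-- initial configuration: `x` on the input stack, the advice `a` on the advice stack, the other
stacks are empty -/
def init (x a : List Bool) : M.Cfg :=
  ⟨some M.main, M.start, Function.update (Function.update (fun _ => []) M.adv
    (a.map M.advΓ.symm)) M.inp (x.map M.inpΓ.symm)⟩

open Classical in
/-- one step with the oracle `A` -/
noncomputable def step (A : Set (List Bool)) (c : M.Cfg) : Option M.Cfg :=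
  TM2.step (fun l => M.m l (decide (M.word c ∈ A))) c

/-- the configuration after `n` steps on the input `x` with the advice `a` and the oracle `A` -/
noncomputable def after (A : Set (List Bool)) (x a : List Bool) (n : ℕ) : Option M.Cfg :=
  (fun o : Option M.Cfg => o.bind (M.step A))^[n] (some (M.init x a))

/-- the machine asks the oracle at the configuration `c` -/
def Asks (c : M.Cfg) : Prop := ∃ l, c.l = some l ∧ M.m l true ≠ M.m l false

end OTM

/-- `A` reduces to itself in time `T` with `s` bits of advice and queries of other lengths up to `q`:
for some oracle machine and some advice words `a n` of length at most `s n`, the machine with the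
oracle `A` halts on every input `x` with the advice `a |x|` within `T |x|` steps, accepts `x` iff
`x ∈ A`, and only asks for words of a length different from `|x|` and at most `q |x|`. If `q n = n`
then these are the words shorter than `x`. -/
def SelfReducible (q T s : ℕ → ℕ) (A : Set (List Bool)) : Prop :=
  ∃ (M : OTM) (a : ℕ → List Bool), (∀ n, (a n).length ≤ s n) ∧ ∀ x : List Bool,
    (∃ n ≤ T x.length, ∃ c, M.after A x (a x.length) n = some c ∧ c.l = none ∧
      (M.acc c.var = true ↔ x ∈ A)) ∧
    ∀ n c, M.after A x (a x.length) n = some c → M.Asks c →
      (M.word c).length ≠ x.length ∧ (M.word c).length ≤ q x.length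

/-- `A` is NP-complete (Karp reductions) -/
def NPComplete (A : Set (List Bool)) : Prop :=
  InNP A ∧ ∀ L : Set (List Bool), InNP L → ∃ f : List Bool → List Bool, PolyFun f ∧
    ∀ x, x ∈ L ↔ f x ∈ A

/-- `L` is in P/poly: decided in polynomial time with advice of polynomial length -/
def InPpoly (L : Set (List Bool)) : Prop :=
  ∃ (V : List Bool × List Bool → Bool) (a : ℕ → List Bool) (p : Polynomial ℕ),
    Nonempty (Turing.TM2ComputableInPolyTime encPair Computability.encodeBool V) ∧
    (∀ n, (a n).length ≤ p.eval n) ∧ ∀ u, u ∈ L ↔ V (u, a u.length) = true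

/-- `A` and `B` are p-isomorphic -/
def PIso (A B : Set (List Bool)) : Prop :=
  ∃ f : List Bool ≃ List Bool, PolyFun f ∧ PolyFun f.symm ∧ ∀ x, x ∈ A ↔ f x ∈ B

end Pool.Agent.Helper82.SR
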