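import Pool.Agent.Helper82.SR.Base

set_option autoImplicit false

/-! Enumeration of short words. -/

namespace Pool.Agent.Helper82.SR

open Pool.Agent.Helper58 Pool.Agent.Helper53.CL Pool.Agent.Helper52.Grid Pool.Agent.Helper61.TQ

variable {γ : Type} [Enc γ]

/-- number of a word -/
def wv : W → ℕ
  | [] => 0
  | b :: w => (bif b then 2 else 1) + 2 * wv w

lemma wv_append (u w : W) : wv (u ++ w) = wv u + 2 ^ u.length * wv w := by
  induction u with
  | nil => simp [wv]
  | cons b u ih =>
    rw [List.cons_append, wv, wv, ih, List.length_cons, pow_succ]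
    ring

lemma wv_lt (w : W) : wv w + 2 ≤ 2 ^ (w.length + 1) := by
  induction w with
  | nil => simp [wv]
  | cons b w ih =>
    rw [wv, List.length_cons, pow_succ]
    cases b
    · simp only [cond_false]; omega
    · simp only [cond_true]; omega

lemma wv_inj : ∀ u w : W, wv u = wv w → u = w := by
  intro u
  induction u with
  | nil =>
    intro w h
    cases w with
    | nil => rfl
    | cons b w =>
      rw [wv, wv] at h
      cases b
      · simp only [cond_false] at h; omega
      · simp only [cond_true] at h; omega
  | cons a u ih =>
    intro w h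
    cases w with
    | nil =>
      rw [wv, wv] at h
      cases a
      · simp only [cond_false] at h; omega
      · simp only [cond_true] at h; omega
    | cons b w =>
      rw [wv, wv] at h
      cases a <;> cases b
      · simp only [cond_false] at h
        rw [ih w (by omega)]
      · simp only [cond_false, cond_true] at h; omega
      · simp only [cond_false, cond_true] at h; omega
      · simp only [cond_true] at h
        rw [ih w (by omega)]

/-- step of the successor -/
def nxS (s : Bool × W) (b : Bool) : Bool × W := bif s.1 then (b, s.2 ++ [!b]) else (false, s.2 ++ [b])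

/-- the next word -/
def nx (w : W) : W := bif (w.foldl nxS (true, [])).1 then (w.foldl nxS (true, [])).2 ++ [false]
  else (w.foldl nxS (true, [])).2

lemma nx_aux (w : W) : ∀ (s : Bool × W), (w.foldl nxS s).2.length = s.2.length + w.length ∧
    wv (w.foldl nxS s).2 + (bif (w.foldl nxS s).1 then 2 ^ (s.2.length + w.length) else 0) =
      wv s.2 + (bif s.1 then 2 ^ s.2.length else 0) + 2 ^ s.2.length * wv w := by
  induction w with
  | nil => intro s; simp [wv]
  | cons b w ih =>
    rintro ⟨c, u⟩
    rw [List.foldl_cons]
    cases c
    · have h : nxS (false, u) b = (false, u ++ [b]) := rfl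
      rw [h]
      obtain ⟨h1, h2⟩ := ih (false, u ++ [b])
      simp only [List.length_append, List.length_cons, List.length_nil, zero_add] at h1 h2 ⊢
      refine ⟨by omega, ?_⟩
      have h3 : u.length + 1 + w.length = u.length + (w.length + 1) := by omega
      rw [h3] at h2
      rw [h2, wv_append, wv, wv, wv, pow_succ]
      simp only [cond_false]
      ring
    · have h : nxS (true, u) b = (b, u ++ [!b]) := rfl
      rw [h]
      obtain ⟨h1, h2⟩ := ih (b, u ++ [!b])
      simp only [List.length_append, List.length_cons, List.length_nil, zero_add] at h1 h2 ⊢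
      refine ⟨by omega, ?_⟩
      have h3 : u.length + 1 + w.length = u.length + (w.length + 1) := by omega
      rw [h3] at h2
      rw [h2, wv_append, wv, wv, wv, pow_succ]
      cases b
      · simp only [cond_false, cond_true, Bool.not_false]
        ring
      · simp only [cond_false, cond_true, Bool.not_true]
        ring

lemma nx_length (w : W) : (nx w).length ≤ w.length + 1 := by
  obtain ⟨h1, _⟩ := nx_aux w (true, [])
  unfold nx
  cases h : (w.foldl nxS (true, [])).1
  · simp only [cond_false, h1, List.length_nil, zero_add]
    omega
  · simp only [cond_true, List.length_append, h1, List.length_nil, List.length_cons, zero_add]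
    omega

lemma nx_wv (w : W) : wv (nx w) = wv w + 1 := by
  obtain ⟨h1, h2⟩ := nx_aux w (true, [])
  unfold nx
  cases h : (w.foldl nxS (true, [])).1
  · rw [h] at h2
    simp only [cond_false, cond_true, List.length_nil, pow_zero, wv, one_mul, add_zero,
      zero_add] at h2 ⊢
    omega
  · rw [h] at h2
    simp only [cond_true, List.length_nil, pow_zero, wv, one_mul, zero_add] at h2 h1 ⊢
    rw [wv_append, h1, wv, wv]
    simp only [cond_false, mul_zero, add_zero, mul_one]
    omega

@[fun_prop] theorem ptf_nx {w : γ → W} (hw : PTf w) : PTf (fun x => nx (w x)) := by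
  have h : PTf (fun x => (w x).foldl nxS (true, [])) := by
    refine ptf_foldl_add (l := w) (init := fun _ => (true, ([] : W))) (step := fun _ s b => nxS s b)
      (K := fun _ => 20) hw (by fun_prop) (by unfold nxS; fun_prop) (PB.const _) ?_
    rintro x ⟨c, u⟩ b -
    have h1 := sz_append u [b]
    have h2 := sz_append u [!b]
    rw [sz_lcons, sz_lnil] at h1 h2
    have h3 := sz_bool b
    have h4 := sz_bool (!b)
    have h5 := sz_pos c
    cases c
    · show sz (false, u ++ [b]) ≤ _
      rw [sz_pair, sz_pair, sz_false]
      omega
    · show sz (b, u ++ [!b]) ≤ _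
      rw [sz_pair, sz_pair]
      omega
  unfold nx
  fun_prop

/-- the word with a given number -/
def wi (i : ℕ) : W := (List.replicate i ()).foldl (fun w _ => nx w) []

lemma wi_aux (l : List Unit) : ∀ w : W, (l.foldl (fun w _ => nx w) w).length ≤ w.length + l.length ∧
    wv (l.foldl (fun w _ => nx w) w) = wv w + l.length := by
  induction l with
  | nil => intro w; simp
  | cons u l ih =>
    intro w
    rw [List.foldl_cons, List.length_cons]
    obtain ⟨h1, h2⟩ := ih (nx w)
    have h3 := nx_length w
    have h4 := nx_wv w
    omega

@[fun_prop] theorem ptf_wi {i : γ → ℕ} (hi : PTf i) : PTf (fun x => wi (i x)) := by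
  unfold wi
  refine PTf.foldl (l := fun x => List.replicate (i x) ()) (init := fun _ => ([] : W))
    (step := fun _ w _ => nx w) (B := fun x => 4 * i x + 1) (by fun_prop) (by fun_prop)
    (by fun_prop) ?_ ?_
  · refine PB.add (PB.mul (PB.const 4) (hi.sz_le.mono (fun x => ?_))) (PB.const 1)
    rw [sz_nat]
    omega
  · intro x j
    have h1 := (wi_aux ((List.replicate (i x) ()).take j) []).1
    obtain ⟨v, hv⟩ : ∃ v : W, ((List.replicate (i x) ()).take j).foldl (fun w _ => nx w) [] = v :=
      ⟨_, rfl⟩
    rw [List.length_take, List.length_replicate, List.length_nil, hv] at h1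
    have h2 := sz_bits_le v
    show sz (((List.replicate (i x) ()).take j).foldl (fun w _ => nx w) []) ≤ 4 * i x + 1
    rw [hv]
    omega

lemma wi_wv (w : W) : wi (wv w) = w := by
  apply wv_inj
  unfold wi
  rw [(wi_aux _ []).2]
  simp [wv]

/-- the words with numbers less than `T` -/
def wds (T : ℕ) : List W := (List.range T).map wi

@[fun_prop] theorem ptf_wds {T : γ → ℕ} (hT : PTf T) : PTf (fun x => wds (T x)) := by
  unfold wds
  fun_prop

lemma mem_wds {w : W} {T : ℕ} (h : 2 ^ (w.length + 1) ≤ T) : w ∈ wds T := by
  unfold wds
  rw [List.mem_map]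
  refine ⟨wv w, ?_, wi_wv w⟩
  rw [List.mem_range]
  have := wv_lt w
  omega

end Pool.Agent.Helper82.SR
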