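import Pool.Agent.Helper82.SR.Prog

set_option autoImplicit false

/-! The universal evaluation of self-reductions is polynomial. -/

namespace Pool.Agent.Helper82.SR

open Pool.Agent.Helper58 Pool.Agent.Helper53.CL Pool.Agent.Helper52.Grid Pool.Agent.Helper61.TQ

variable (g : ℕ)

/-- evaluation of the program on the word `x`, the clocks are `n ^ K` -/
def EV (K : ℕ) (P : Prg) (x : W) : Bool :=
  hd ((List.replicate (x.length ^ (2 * K + 2)) ()).foldl (fun st _ => FF g K P x.length st)
    ([frm g K P x], [])).2 false

lemma sz_hd_le {α : Type} [Enc α] (l : List α) (d : α) : sz (hd l d) ≤ sz l + sz d := by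
  cases l with
  | nil => simp [hd, lcase, sz_lnil]
  | cons a l =>
    have : hd (a :: l) d = a := rfl
    rw [this, sz_lcons]
    omega

lemma sz_tops_le (r : ℕ) (t s : List (List ℕ)) : sz (tops r t s) ≤ sz t + sz s := by
  induction t generalizing s with
  | nil => simp [tops, sz_lnil]
  | cons a t ih =>
    cases s with
    | nil => simp [tops, sz_lnil]
    | cons b s =>
      have h : tops r (a :: t) (b :: s) = (a ++ b.drop r) :: tops r t s := by
        simp [tops]
      have h1 := ih s
      have h2 := sz_append a (b.drop r)
      have h3 := sz_drop_le b r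
      rw [h, sz_lcons, sz_lcons, sz_lcons]
      omega

lemma sz_fnd_le (P : Prg) (k : List ℕ) : sz (fnd P k) ≤ sz P + 1 := by
  unfold fnd
  have h : ∀ l : Prg, (∀ e ∈ l, e ∈ P) → sz (hd l []) ≤ sz P + 1 := by
    intro l hl
    cases l with
    | nil => simp [hd, lcase, sz_lnil]
    | cons a l =>
      have h1 : hd (a :: l) [] = a := rfl
      rw [h1]
      exact (sz_mem_le P a (hl a List.mem_cons_self)).le.trans (Nat.le_succ _)
  refine h _ (fun e he => ?_)
  exact List.mem_of_mem_tail (List.mem_of_mem_filter he)

lemma sz_stp_le (P : Prg) (b : ℕ) (c : ℕ × List (List ℕ)) : sz (stp P b c) ≤ sz c + (2 * sz P + 10) := by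
  unfold stp
  have h := sz_fnd_le P (key (par P 0) b c.1 c.2)
  generalize fnd P (key (par P 0) b c.1 c.2) = F at h
  cases F with
  | nil =>
    show sz c ≤ _
    omega
  | cons k e =>
    show sz (hd (hd e []) 0, tops (par P 0) e.tail c.2) ≤ _
    rw [sz_lcons] at h
    have h1 := sz_hd_le (hd e []) 0
    have h2 := sz_hd_le e []
    have h3 := sz_tops_le (par P 0) e.tail c.2
    have h4 : sz e.tail ≤ sz e := by
      rw [← List.drop_one]
      exact sz_drop_le _ _
    have h5 : sz ([] : List ℕ) = 1 := rfl
    have h6 : sz (0 : ℕ) = 1 := rfl
    rw [sz_pair, sz_prod c]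
    omega

lemma sz_FF_le (K k : ℕ) (P : Prg) (n : ℕ) (st : EState)
    (hk : ∀ w : W, sz (frm g K P w) ≤ (sz (P, w) + 1) ^ k) :
    sz (FF g K P n st) ≤ sz st + ((sz P + 4 * n + 3) ^ k + 2 * sz P + 20) := by
  obtain ⟨fs, as⟩ := st
  unfold FF
  cases fs with
  | nil =>
    show sz (([] : List Frame), as) ≤ _
    omega
  | cons f fs =>
    cases as with
    | cons b as =>
      show sz ((f.1, (f.2.1, stp P (bif b then 1 else 0) f.2.2)) :: fs, ([] : List Bool)) ≤ _
      have h1 := sz_stp_le P (bif b then 1 else 0) f.2.2
      have h2 := sz_prod f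
      have h3 := sz_prod f.2
      rw [sz_pair, sz_pair, sz_lcons, sz_lcons, sz_lcons, sz_pair, sz_pair, sz_lnil, h2, h3]
      omega
    | nil =>
      show sz (FA g K P n f fs) ≤ _
      have e1 := sz_lcons f fs
      have e2 : sz ((f :: fs), ([] : List Bool)) = sz (f :: fs) + 1 + 1 := by
        rw [sz_pair, sz_lnil]
      have e3 := sz_prod f
      have e4 := sz_prod f.2
      have hT : sz (fs, [true]) = sz fs + 6 := by
        rw [sz_pair, sz_lcons, sz_lnil, sz_true]
      have hF : sz (fs, [false]) = sz fs + 4 := by
        rw [sz_pair, sz_lcons, sz_lnil, sz_false]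
      obtain ⟨len, clk, c⟩ := f
      unfold FA
      cases clk with
      | zero =>
        show sz (fs, [false]) ≤ _
        omega
      | succ m =>
        show sz (bif memB c.1 (seg P 2) then (fs, [true]) else
          bif memB c.1 (seg P 3) then (fs, [false]) else
          bif ask g P n len c then (frm g K P (qw P c.2) :: (len, (m, c)) :: fs, [])
          else ((len, (m, stp P 0 c)) :: fs, [])) ≤ _
        have e5 : sz (m + 1) = sz m + 2 := sz_succ m
        simp only at e3 e4
        cases h1 : memB c.1 (seg P 2)
        · simp only [cond_false]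
          cases h2 : memB c.1 (seg P 3)
          · simp only [cond_false]
            cases h3 : ask g P n len c
            · simp only [cond_false]
              have h4 := sz_stp_le P 0 c
              rw [sz_pair, sz_lcons, sz_pair, sz_pair, sz_lnil]
              omega
            · simp only [cond_true]
              have hq : (qw P c.2).length ≤ n := by
                unfold ask at h3
                simp only [Bool.and_eq_true, decide_eq_true_eq] at h3
                exact h3.2.2.1
              have h4 := hk (qw P c.2)
              have h5 : (sz (P, qw P c.2) + 1) ^ k ≤ (sz P + 4 * n + 3) ^ k := by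
                apply Nat.pow_le_pow_left
                rw [sz_pair]
                have := sz_bits_le (qw P c.2)
                omega
              have h6 := sz_pair len (m, c)
              have h7 := sz_pair m c
              rw [sz_pair, sz_lcons, sz_lcons, sz_lnil]
              omega
          · simp only [cond_true]
            omega
        · simp only [cond_true]
          omega

/-- the evaluation is polynomial in the program and the word -/
theorem ptf_EV (K : ℕ) {γ : Type} [Enc γ] {P : γ → Prg} {x : γ → W} (hP : PTf P) (hx : PTf x) :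
    PTf (fun a => EV g K (P a) (x a)) := by
  obtain ⟨k, hk⟩ := (ptf_frm g K (γ := Prg × W) (P := fun p => p.1) (x := fun p => p.2)
    (by fun_prop) (by fun_prop)).sz_le
  have hc : PTf (fun a => (x a).length ^ (2 * K + 2)) := ptf_pow (by fun_prop) _
  have hf : PTf (fun a => frm g K (P a) (x a)) := by fun_prop
  have hs : PTf (fun p : γ × (EState × Unit) => FF g K (P p.1) (x p.1).length p.2.1) :=
    ptf_FF g K (by fun_prop) (by fun_prop) (by fun_prop)
  have hB : PB (fun a => (sz (P a) + 4 * (x a).length + 3) ^ k + 2 * sz (P a) + 20) := by
    have h1 : PB (fun a => sz (P a)) := hP.sz_le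
    have h2 : PB (fun a => 4 * (x a).length) := by
      refine PB.mono ((PB.const 4).mul hx.sz_le) (fun a => ?_)
      have := length_lt_sz (x a)
      omega
    exact ((((h1.add h2).add (PB.const 3)).pow k).add ((PB.const 2).mul h1)).add (PB.const 20)
  have hm := ptf_foldl_add (l := fun a => List.replicate ((x a).length ^ (2 * K + 2)) ())
    (init := fun a => (([frm g K (P a) (x a)], []) : EState))
    (step := fun a st _ => FF g K (P a) (x a).length st) (by fun_prop) (by fun_prop) hs hB
    (fun a st _ _ => sz_FF_le g K k (P a) _ st (fun w => hk (P a, w)))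
  unfold EV
  fun_prop

end Pool.Agent.Helper82.SR
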