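import Pool.Agent.Helper82.SR.Defs

set_option autoImplicit false

/-! One step of a machine only depends on the tops of the stacks. -/

namespace Pool.Agent.Helper82.SR

open Turing Function

section

variable {K : Type} [DecidableEq K] {Γ : K → Type} {Λ σ : Type}

/-- how many letters are read at most -/
def dep : TM2.Stmt Γ Λ σ → ℕ
  | TM2.Stmt.push _ _ q => dep q
  | TM2.Stmt.peek _ _ q => dep q + 1
  | TM2.Stmt.pop _ _ q => dep q + 1
  | TM2.Stmt.load _ q => dep q
  | TM2.Stmt.branch _ q₁ q₂ => dep q₁ + dep q₂
  | TM2.Stmt.goto _ => 0
  | TM2.Stmt.halt => 0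

lemma upd_append (T R : ∀ k, List (Γ k)) (k : K) (u w : List (Γ k)) (h : w = u ++ R k) :
    update (fun k => T k ++ R k) k w = fun j => update T k u j ++ R j := by
  funext j
  by_cases hj : j = k
  · subst hj
    simp [h]
  · simp [hj]

theorem stepAux_local (q : TM2.Stmt Γ Λ σ) : ∀ (v : σ) (T R : ∀ k, List (Γ k)),
    (∀ k, dep q ≤ (T k).length ∨ R k = []) →
    TM2.stepAux q v (fun k => T k ++ R k) =
      ⟨(TM2.stepAux q v T).l, (TM2.stepAux q v T).var, fun k => (TM2.stepAux q v T).stk k ++ R k⟩ := by
  induction q with
  | push k f q ih =>
    intro v T R h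
    have h0 : dep (TM2.Stmt.push k f q) = dep q := rfl
    rw [h0] at h
    rw [TM2.stepAux, TM2.stepAux]
    rw [upd_append T R k (f v :: T k) (f v :: (T k ++ R k)) rfl]
    apply ih
    intro j
    by_cases hj : j = k
    · subst hj
      rcases h j with h | h
      · left
        simp only [update_self, List.length_cons]
        omega
      · exact Or.inr h
    · simpa [hj] using h j
  | peek k f q ih =>
    intro v T R h
    have h0 : dep (TM2.Stmt.peek k f q) = dep q + 1 := rfl
    rw [h0] at h
    rw [TM2.stepAux, TM2.stepAux]
    have h1 : (T k ++ R k).head? = (T k).head? := by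
      rcases h k with h | h
      · cases hT : T k with
        | nil => rw [hT] at h; simp at h
        | cons a l => rfl
      · rw [h, List.append_nil]
    rw [h1]
    apply ih
    intro j
    rcases h j with h | h
    · left; omega
    · exact Or.inr h
  | pop k f q ih =>
    intro v T R h
    have h0 : dep (TM2.Stmt.pop k f q) = dep q + 1 := rfl
    rw [h0] at h
    rw [TM2.stepAux, TM2.stepAux]
    have h1 : (T k ++ R k).head? = (T k).head? ∧ (T k ++ R k).tail = (T k).tail ++ R k := by
      rcases h k with h | h
      · cases hT : T k with
        | nil => rw [hT] at h; simp at h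
        | cons a l => exact ⟨rfl, rfl⟩
      · rw [h, List.append_nil, List.append_nil]
        exact ⟨rfl, rfl⟩
    rw [h1.1, upd_append T R k (T k).tail _ h1.2]
    apply ih
    intro j
    by_cases hj : j = k
    · subst hj
      rcases h j with h | h
      · left
        simp only [update_self, List.length_tail]
        omega
      · exact Or.inr h
    · rcases h j with h | h
      · left
        rw [update_of_ne hj]
        omega
      · exact Or.inr h
  | load a q ih =>
    intro v T R h
    have h0 : dep (TM2.Stmt.load a q) = dep q := rfl
    rw [h0] at h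
    rw [TM2.stepAux, TM2.stepAux]
    exact ih _ _ _ h
  | branch f q₁ q₂ ih₁ ih₂ =>
    intro v T R h
    have h0 : dep (TM2.Stmt.branch f q₁ q₂) = dep q₁ + dep q₂ := rfl
    rw [h0] at h
    rw [TM2.stepAux, TM2.stepAux]
    cases f v
    · simp only [cond_false]
      refine ih₂ _ _ _ (fun j => ?_)
      rcases h j with h | h
      · left; omega
      · exact Or.inr h
    · simp only [cond_true]
      refine ih₁ _ _ _ (fun j => ?_)
      rcases h j with h | h
      · left; omega
      · exact Or.inr h
  | goto f => intro v T R h; rfl
  | halt => intro v T R h; rfl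

/-- one step, computed on the tops -/
theorem stepAux_take (q : TM2.Stmt Γ Λ σ) (v : σ) (S : ∀ k, List (Γ k)) (r : ℕ) (hr : dep q ≤ r) :
    TM2.stepAux q v S = ⟨(TM2.stepAux q v (fun k => (S k).take r)).l,
      (TM2.stepAux q v (fun k => (S k).take r)).var,
      fun k => (TM2.stepAux q v (fun k => (S k).take r)).stk k ++ (S k).drop r⟩ := by
  have h := stepAux_local q v (fun k => (S k).take r) (fun k => (S k).drop r) (fun k => by
    by_cases hk : (S k).length ≤ r
    · right
      exact List.drop_eq_nil_of_le hk
    · left
      rw [List.length_take]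
      omega)
  rw [← h]
  congr 1
  funext k
  rw [List.take_append_drop]

end

end Pool.Agent.Helper82.SR
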