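import Pool.Agent.Helper82.SR.Base

set_option autoImplicit false

/-! Search with an oracle for extendable words. -/

namespace Pool.Agent.Helper82.SR

open Pool.Agent.Helper58 Pool.Agent.Helper53.CL Pool.Agent.Helper52.Grid Pool.Agent.Helper61.TQ

variable {γ : Type} [Enc γ]

/-- extendable words: `z` is the beginning of a certificate for `x` -/
def Ext (V : W → W → Bool) (B : W → ℕ) (p : W × W) : Prop :=
  ∃ t : W, (p.2 ++ t).length ≤ B p.1 ∧ V p.1 (p.2 ++ t) = true

lemma npf_ext {V : W → W → Bool} {B : W → ℕ} (hV : PTf (fun x : W × W => V x.1 x.2)) (hB : PTf B) :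
    NPf (Ext V B) := by
  refine ⟨fun p t => decide ((p.2 ++ t).length < B p.1 + 1) && V p.1 (p.2 ++ t), fun p => B p.1,
    ?_, PTf.comp hB (PTf.fst PTf.id), ?_, ?_⟩
  · have h1 : PTf (fun x : (W × W) × W => B x.1.1) := PTf.comp hB (by fun_prop)
    have h2 : PTf (fun x : (W × W) × W => V x.1.1 (x.1.2 ++ x.2)) :=
      PTf.comp (f := fun x : (W × W) × W => (x.1.1, x.1.2 ++ x.2)) hV (by fun_prop)
    fun_prop
  · intro p t h
    rw [Bool.and_eq_true, decide_eq_true_iff] at h
    exact ⟨t, by omega, h.2⟩
  · rintro p ⟨t, h1, h2⟩
    refine ⟨t, ?_, ?_⟩
    · rw [List.length_append] at h1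
      show t.length ≤ B p.1
      omega
    · rw [Bool.and_eq_true, decide_eq_true_iff]
      exact ⟨by omega, h2⟩

/-- step of the search: `v` tests certificates, `q` tests extendable words -/
def srS (v q : W → Bool) (z : W) : W :=
  bif v z then z else bif q (z ++ [true]) then z ++ [true] else z ++ [false]

/-- search -/
def sr (v q : W → Bool) (n : ℕ) : W := (List.replicate n ()).foldl (fun z _ => srS v q z) []

theorem ptf_sr {v q : γ → W → Bool} {n : γ → ℕ} (hv : PTf (fun p : γ × W => v p.1 p.2))
    (hq : PTf (fun p : γ × W => q p.1 p.2)) (hn : PTf n) : PTf (fun x => sr (v x) (q x) (n x)) := by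
  unfold sr
  refine ptf_foldl_add (l := fun x => List.replicate (n x) ()) (init := fun _ => ([] : W))
    (step := fun x z _ => srS (v x) (q x) z) (K := fun _ => 10) (by fun_prop) (by fun_prop) ?_
    (PB.const _) ?_
  · have h1 : PTf (fun p : γ × (W × Unit) => v p.1 p.2.1) :=
      PTf.comp (f := fun p : γ × (W × Unit) => (p.1, p.2.1)) hv (by fun_prop)
    have h2 : PTf (fun p : γ × (W × Unit) => q p.1 (p.2.1 ++ [true])) :=
      PTf.comp (f := fun p : γ × (W × Unit) => (p.1, p.2.1 ++ [true])) hq (by fun_prop)
    unfold srS
    fun_prop
  · intro x z _ _
    have h1 := sz_append z [true]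
    have h2 := sz_append z [false]
    rw [sz_lcons, sz_lnil, sz_true] at h1
    rw [sz_lcons, sz_lnil, sz_false] at h2
    unfold srS
    cases v x z
    · cases q x (z ++ [true])
      · simp only [cond_false]; omega
      · simp only [cond_false, cond_true]; omega
    · simp only [cond_true]; omega

/-- the search finds a certificate -/
theorem sr_corr (V : W → W → Bool) (B : W → ℕ) (x : W) (q : W → Bool)
    (hq : ∀ z, z.length ≤ B x → (q z = true ↔ Ext V B (x, z))) (h : Ext V B (x, [])) :
    V x (sr (V x) q (B x)) = true := by
  have key : ∀ i, i ≤ B x → V x (sr (V x) q i) = true ∨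
      ((sr (V x) q i).length = i ∧ Ext V B (x, sr (V x) q i)) := by
    intro i
    induction i with
    | zero => intro _; exact Or.inr ⟨rfl, h⟩
    | succ i ih =>
      intro hi
      have hs : sr (V x) q (i + 1) = srS (V x) q (sr (V x) q i) := by
        unfold sr
        rw [List.replicate_succ', List.foldl_append]
        rfl
      rw [hs]
      obtain ⟨z, hz⟩ : ∃ z, sr (V x) q i = z := ⟨_, rfl⟩
      have ih' := ih (by omega)
      rw [hz] at ih' ⊢
      unfold srS
      cases hv : V x z
      · simp only [cond_false]
        have h2 := ih'.resolve_left (by rw [hv]; simp)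
        obtain ⟨hl, t, ht1, ht2⟩ := h2
        cases t with
        | nil =>
          exfalso
          have ht3 : V x (z ++ []) = true := ht2
          rw [List.append_nil, hv] at ht3
          simp at ht3
        | cons b t =>
          have hlen : z.length ≤ i := by omega
          cases hqz : q (z ++ [true])
          · simp only [cond_false]
            right
            have hb : b = false := by
              cases b with
              | false => rfl
              | true =>
                exfalso
                have h3 : q (z ++ [true]) = true := (hq _ (by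
                  rw [List.length_append, List.length_cons, List.length_nil]; omega)).2 ⟨t, by
                    simpa using ht1, by simpa using ht2⟩
                rw [hqz] at h3
                simp at h3
            subst hb
            refine ⟨by rw [List.length_append, List.length_cons, List.length_nil]; omega, t, ?_, ?_⟩
            · simpa using ht1
            · simpa using ht2
          · simp only [cond_true]
            right
            refine ⟨by rw [List.length_append, List.length_cons, List.length_nil]; omega, ?_⟩
            exact (hq _ (by rw [List.length_append, List.length_cons, List.length_nil]; omega)).1 hqz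
      · simp only [cond_true]
        exact Or.inl hv
  rcases key (B x) le_rfl with h1 | ⟨h1, t, h2, h3⟩
  · exact h1
  · simp only at h2 h3
    rw [List.length_append] at h2
    have ht : t = [] := List.length_eq_zero_iff.1 (by omega)
    rw [ht, List.append_nil] at h3
    exact h3

end Pool.Agent.Helper82.SR
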