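import Pool.Agent.Helper82.SR.Main
import Pool.Agent.Helper82.SR.Enum
import Pool.Agent.Helper82.SR.Search

set_option autoImplicit false

/-! Logarithmic advice. -/

namespace Pool.Agent.Helper82.SR

open Turing Function
open Pool.Agent.Helper58 Pool.Agent.Helper53.CL Pool.Agent.Helper52.Grid Pool.Agent.Helper61.TQ

lemma filter_range_good {g m : ℕ} (hm : Good g m) :
    (List.range (m ^ (g + 2))).filter (goodB g) = (List.range (m + 1)).filter (goodB g) := by
  have h2 := good_pos hm
  have h3 := sq_le_pow g m (by omega)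
  have h4 : 2 * m ≤ m * m := Nat.mul_le_mul_right _ h2
  obtain ⟨d, hd⟩ : ∃ d, m ^ (g + 2) = (m + 1) + d := ⟨m ^ (g + 2) - (m + 1), by omega⟩
  have h5 : (List.range (m ^ (g + 2))) = List.range (m + 1) ++
      (List.range d).map (fun i => (m + 1) + i) := by
    rw [hd, List.range_add]
  rw [h5, List.filter_append]
  have h6 : ((List.range d).map (fun i => (m + 1) + i)).filter (goodB g) = [] := by
    rw [List.filter_eq_nil_iff]
    intro n hn hgn
    rw [List.mem_map] at hn
    obtain ⟨i, hi, rfl⟩ := hn
    rw [List.mem_range] at hi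
    rw [goodB_iff] at hgn
    have := le_of_good_lt hm hgn (by omega)
    omega
  rw [h6, List.append_nil]

lemma wl_single (u : W) : wl [u.map bit] ≤ 4 * u.length + 2 := by
  have := wl_le (fun _ => u) [0] (4 * u.length + 2) (fun n _ => le_rfl)
  simpa using this

lemma wl_log_le (g k : ℕ) (a : ℕ → W) (ha : ∀ n, (a n).length ≤ k * Nat.log 2 n + k) :
    ∀ N, wl (atab g a N) ≤ 4 * (4 * k + 2) * Nat.log 2 N := by
  intro N
  induction N using Nat.strong_induction_on with
  | _ N ih =>
    have hone : ∀ n, 4 * (a n).length + 2 ≤ (4 * k + 2) * (Nat.log 2 n + 1) := by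
      intro n
      have h1 := ha n
      have h2 : (4 * k + 2) * (Nat.log 2 n + 1) = 4 * (k * Nat.log 2 n + k) + 2 * Nat.log 2 n + 2 := by
        ring
      omega
    by_cases hN : Good g N
    · obtain ⟨i, hi⟩ := hN
      have hgN : Good g N := ⟨i, hi⟩
      have hfil : [N].filter (goodB g) = [N] := by
        rw [List.filter_cons, (goodB_iff _ _).2 hgN]
        rfl
      cases i with
      | zero =>
        have hN2 : N = 2 := by simpa using hi
        have h1 : atab g a N = [(a N).map bit] := by
          unfold atab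
          rw [List.range_succ, List.filter_append, hfil]
          have h2 : (List.range N).filter (goodB g) = [] := by
            rw [List.filter_eq_nil_iff]
            intro n hn hgn
            rw [List.mem_range] at hn
            rw [goodB_iff] at hgn
            have := good_pos hgn
            omega
          rw [h2]
          rfl
        rw [h1]
        have h3 := wl_single (a N)
        have h4 := hone N
        have h5 : Nat.log 2 N = 1 := by
          have h6 : Nat.log 2 (2 ^ 1) = 1 := Nat.log_pow (by norm_num) 1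
          rw [hN2]
          simpa using h6
        rw [h5] at h4 ⊢
        omega
      | succ j =>
        obtain ⟨m, hm⟩ : ∃ m, 2 ^ (g + 2) ^ j = m := ⟨_, rfl⟩
        have hgm : Good g m := ⟨j, hm.symm⟩
        have hNm : N = m ^ (g + 2) := by rw [hi, ← pow_step, hm]
        have h2 := good_pos hgm
        have h3 := sq_le_pow g m (by omega)
        have h4 : 2 * m ≤ m * m := Nat.mul_le_mul_right _ h2
        have h1 : atab g a N = atab g a m ++ [(a N).map bit] := by
          unfold atab
          rw [List.range_succ, List.filter_append, hfil, List.map_append]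
          congr 2
          rw [hNm, filter_range_good hgm]
        rw [h1, wl_append]
        have h5 := ih m (by omega)
        have h6 := wl_single (a N)
        have h7 := hone N
        have h8 : Nat.log 2 N = (g + 2) ^ (j + 1) := by rw [hi, Nat.log_pow (by norm_num)]
        have h9 : Nat.log 2 m = (g + 2) ^ j := by rw [← hm, Nat.log_pow (by norm_num)]
        have h10 : 1 ≤ (g + 2) ^ j := Nat.one_le_pow _ _ (by omega)
        have h11 : 2 * (g + 2) ^ j ≤ (g + 2) ^ (j + 1) := by
          rw [pow_succ, mul_comm ((g + 2) ^ j)]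
          exact Nat.mul_le_mul_right _ (by omega)
        rw [h9] at h5
        rw [h8] at h7 ⊢
        obtain ⟨E, hE⟩ : ∃ E, 4 * k + 2 = E := ⟨_, rfl⟩
        obtain ⟨X, hX⟩ : ∃ X, (g + 2) ^ j = X := ⟨_, rfl⟩
        obtain ⟨Y, hY⟩ : ∃ Y, (g + 2) ^ (j + 1) = Y := ⟨_, rfl⟩
        rw [hE, hX] at h5
        rw [hE, hY] at h7
        rw [hX] at h10
        rw [hX, hY] at h11
        rw [hE, hY]
        have e1 : E * (2 * X) ≤ E * Y := Nat.mul_le_mul_left _ h11
        have e2 : E * 1 ≤ E * X := Nat.mul_le_mul_left _ h10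
        have e3 : E * (2 * X) = 2 * (E * X) := by ring
        have e4 : E * (Y + 1) = E * Y + E := by ring
        have e5 : 4 * E * X = 4 * (E * X) := by ring
        have e6 : 4 * E * Y = 4 * (E * Y) := by ring
        omega
    · have hg : goodB g N = false := by
        rw [← Bool.not_eq_true, goodB_iff]
        exact hN
      cases N with
      | zero =>
        have h1 : atab g a 0 = [] := by
          unfold atab
          rw [List.range_succ, List.filter_append, List.filter_cons, hg]
          rfl
        rw [h1]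
        simp [wl, wr, ser]
      | succ n =>
        have h1 : atab g a (n + 1) = atab g a n := by
          unfold atab
          rw [List.range_succ, List.filter_append, List.filter_cons, hg]
          simp
        rw [h1]
        exact (ih n (by omega)).trans (Nat.mul_le_mul_left _ (Nat.log_mono_right (by omega)))

/-- with logarithmic advice the set would be easy -/
theorem logadv {L : Set W} (hL : InNP L) (g k : ℕ)
    (h : SelfReducible (fun n => n ^ g + g) (fun n => n ^ k + k) (fun n => k * Nat.log 2 n + k)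
      (setA g (fun _ => false))) : InP L := by
  obtain ⟨M, a, ha, hM⟩ := h
  obtain ⟨V, B, hV, hB, hs, hc⟩ := (cls_np L).1 hL
  obtain ⟨f, hf, hfE⟩ := st_SATHARD (Ext V B) (npf_ext hV hB)
  obtain ⟨κ, hκ⟩ := hf.sz_le
  obtain ⟨C, hC⟩ := enp_length M
  let N : W → ℕ := fun x => 2 + ((4 * x.length + 4 * B x + 5) ^ κ + 2) ^ (g + 2)
  let T : W → ℕ := fun x => 2 ^ (C + 1) * N x ^ (4 * (4 * k + 2))
  have hN : PTf N := by
    have h1 : PTf (fun x : W => (4 * x.length + 4 * B x + 5) ^ κ) := ptf_pow (by fun_prop) κ
    have h2 : PTf (fun x : W => ((4 * x.length + 4 * B x + 5) ^ κ + 2) ^ (g + 2)) :=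
      ptf_pow (by fun_prop) _
    show PTf (fun x : W => 2 + ((4 * x.length + 4 * B x + 5) ^ κ + 2) ^ (g + 2))
    fun_prop
  have hT : PTf T := by
    have h1 : PTf (fun x : W => N x ^ (4 * (4 * k + 2))) := ptf_pow hN _
    show PTf (fun x : W => 2 ^ (C + 1) * N x ^ (4 * (4 * k + 2)))
    fun_prop
  have hq : PTf (fun p : (W × W) × W => EV g (2 * k + 2) (dec p.1.2) (fA g (f (p.1.1, p.2)))) := by
    have h1 : PTf (fun p : (W × W) × W => fA g (f (p.1.1, p.2))) :=
      PTf.comp (ptf_fA g) (PTf.comp (f := fun p : (W × W) × W => (p.1.1, p.2)) hf (by fun_prop))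
    exact ptf_EV g _ (by fun_prop) h1
  have hsr : PTf (fun p : W × W => sr (V p.1)
      (fun z => EV g (2 * k + 2) (dec p.2) (fA g (f (p.1, z)))) (B p.1)) := by
    refine ptf_sr (v := fun p : W × W => V p.1)
      (q := fun p z => EV g (2 * k + 2) (dec p.2) (fA g (f (p.1, z)))) ?_ hq ?_
    · exact PTf.comp (f := fun p : (W × W) × W => (p.1.1, p.2)) hV (by fun_prop)
    · exact PTf.comp hB (by fun_prop)
  have hD : PTf (fun x : W => (wds (T x)).any (fun w => V x (sr (V x)
      (fun z => EV g (2 * k + 2) (dec w) (fA g (f (x, z)))) (B x)))) := by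
    have h1 : PTf (fun p : W × W => V p.1 (sr (V p.1)
        (fun z => EV g (2 * k + 2) (dec p.2) (fA g (f (p.1, z)))) (B p.1))) :=
      PTf.comp (f := fun p : W × W => (p.1, sr (V p.1)
        (fun z => EV g (2 * k + 2) (dec p.2) (fA g (f (p.1, z)))) (B p.1))) hV
        (PTf.pair (by fun_prop) hsr)
    exact PTf.any (ptf_wds hT) h1
  rw [inP_iff]
  classical
  refine hD.congr (fun x => ?_)
  rw [Bool.eq_iff_iff, decide_eq_true_iff, List.any_eq_true]
  constructor
  · intro hx
    obtain ⟨y, hy1, hy2⟩ := hc x hx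
    have hN2 : 2 ≤ N x := by
      show 2 ≤ 2 + _
      omega
    refine ⟨enp (prog M (atab g a (N x))), mem_wds ?_, ?_⟩
    · rw [hC]
      have h1 := wl_log_le g k a ha (N x)
      have h2 : 2 ^ Nat.log 2 (N x) ≤ N x := Nat.pow_log_le_self 2 (by omega)
      calc 2 ^ (C + wl (atab g a (N x)) + 1) ≤ 2 ^ ((C + 1) + 4 * (4 * k + 2) * Nat.log 2 (N x)) :=
            Nat.pow_le_pow_right (by norm_num) (by omega)
        _ = 2 ^ (C + 1) * (2 ^ Nat.log 2 (N x)) ^ (4 * (4 * k + 2)) := by
            rw [pow_add, ← pow_mul, mul_comm (Nat.log 2 (N x))]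
        _ ≤ 2 ^ (C + 1) * N x ^ (4 * (4 * k + 2)) :=
            Nat.mul_le_mul_left _ (Nat.pow_le_pow_left h2 _)
    · rw [dec_enp]
      refine sr_corr V B x _ (fun z hz => ?_) ⟨y, by simpa using hy1, by simpa using hy2⟩
      have h0 := fA_length g (f (x, z))
      have h1 : (fA g (f (x, z))).length ≤ N x := by
        rw [h0]
        refine (nlen_le _ _).trans ?_
        have h3 : sz (f (x, z)) ≤ (sz (x, z) + 1) ^ κ := hκ (x, z)
        have h4 := length_lt_sz (f (x, z))
        have h5 := sz_bits_le x
        have h6 := sz_bits_le z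
        have h7 : (sz (x, z) + 1) ^ κ ≤ (4 * x.length + 4 * B x + 5) ^ κ := by
          apply Nat.pow_le_pow_left
          rw [sz_pair]
          omega
        show _ ≤ 2 + ((4 * x.length + 4 * B x + 5) ^ κ + 2) ^ (g + 2)
        have h8 : ((f (x, z)).length + 2) ^ (g + 2) ≤
            ((4 * x.length + 4 * B x + 5) ^ κ + 2) ^ (g + 2) :=
          Nat.pow_le_pow_left (by omega) _
        omega
      have h2 := EV_corr g k (setA g (fun _ => false)) (setA_good _ _) M a hM (N x) _
        (fA g (f (x, z))) le_rfl h1 (by rw [h0]; exact nlen_good _ _)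
      rw [h2, ← fA_mem]
      exact (hfE (x, z)).symm
  · rintro ⟨w, -, hw⟩
    exact hs x _ hw

theorem logAdvice (h : ¬ PEqNP) (c : ℕ) :
    ∃ A : Set (List Bool), NPComplete A ∧ PIso SAT A ∧ ∀ k : ℕ,
      ¬ SelfReducible (fun n => n ^ c + c) (fun n => n ^ k + k) (fun n => k * Nat.log 2 n + k) A := by
  refine ⟨setA c (fun _ => false), npc_setA c (by fun_prop), pIso_setA c (by fun_prop), fun k hk => ?_⟩
  apply h
  rw [pEqNP_iff]
  intro L hL
  exact logadv hL c k hk

end Pool.Agent.Helper82.SR
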