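import Pool.Agent.Helper82.SR.SatPad
import Pool.Agent.Helper61.TQ.NPC

set_option autoImplicit false

/-! The sets which are supported on the special lengths. -/

namespace Pool.Agent.Helper82.SR

open Pool.Agent.Helper58 Pool.Agent.Helper53.CL Pool.Agent.Helper52.Grid Pool.Agent.Helper61.TQ

/-- first letter is `false` -/
def hd0 (x : W) : Bool := !(hd x true)

/-- words of a special length `false w` with `w` a padded word of SAT, and words of a special
length `x` beginning with `true` with `D x = true` -/
def setA (c : ℕ) (D : W → Bool) : Set W :=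
  {x | goodB c x.length = true ∧ ((hd0 x = true ∧ unpad x.tail ∈ SAT) ∨ (hd x false = true ∧ D x = true))}

lemma npf_setA (c : ℕ) {D : W → Bool} (hD : PTf D) : NPf (fun x => x ∈ setA c D) := by
  obtain ⟨n1, n2, n3, n4, -⟩ := st_NPC
  have h1 : NPf (fun x : W => goodB c x.length = true) := n1 _ (by fun_prop)
  have h2 : NPf (fun x : W => hd0 x = true) := n1 _ (by unfold hd0; fun_prop)
  have h3 : NPf (fun x : W => unpad x.tail ∈ SAT) :=
    n2 (fun x : W => x ∈ SAT) (fun x : W => unpad x.tail) st_SATNP (by fun_prop)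
  have h4 : NPf (fun x : W => hd x false = true) := n1 _ (by fun_prop)
  have h5 : NPf (fun x : W => D x = true) := n1 _ hD
  exact n3 _ _ h1 (n4 _ _ (n3 _ _ h2 h3) (n3 _ _ h4 h5))

/-- reduction of SAT -/
def fA (c : ℕ) (w : W) : W := false :: pad (nlen c (w.length + 2) - 1) w

lemma fA_length (c : ℕ) (w : W) : (fA c w).length = nlen c (w.length + 2) := by
  have h := le_nlen c (w.length + 2)
  unfold fA
  rw [List.length_cons, pad_length (by omega)]
  omega

lemma fA_mem (c : ℕ) (D : W → Bool) (w : W) : w ∈ SAT ↔ fA c w ∈ setA c D := by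
  unfold setA
  rw [Set.mem_setOf_eq, fA_length, (goodB_iff _ _).2 (nlen_good _ _)]
  have h1 : unpad (fA c w).tail = w := unpad_pad _ _
  have h2 : hd0 (fA c w) = true := rfl
  have h3 : hd (fA c w) false = false := rfl
  rw [h1, h2, h3]
  simp

theorem ptf_fA (c : ℕ) : PTf (fA c) := by
  unfold fA
  fun_prop

/-- all these sets are p-isomorphic to SAT -/
theorem pIso_setA (c : ℕ) {D : W → Bool} (hD : PTf D) : PIso SAT (setA c D) := by
  obtain ⟨g, hg, hG, hgl, hgm⟩ := sat_inv (npf_setA c hD)
  refine berman_hartmanis (F := fun x : W => unpad x.tail) (G := si) (ptf_fA c) hg (by fun_prop)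
    ptf_si (fun x => unpad_pad _ _) hG (fun x => ?_) hgl (fA_mem c D) hgm
  rw [fA_length]
  have := le_nlen c (x.length + 2)
  omega

end Pool.Agent.Helper82.SR
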