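import Pool.Agent.Helper82.SR.Corr
import Pool.Agent.Helper82.SR.SetA

set_option autoImplicit false

/-! NP-complete sets which are not self-reducible in fixed polynomial time. -/

namespace Pool.Agent.Helper82.SR

open Turing Function
open Pool.Agent.Helper58 Pool.Agent.Helper53.CL Pool.Agent.Helper52.Grid Pool.Agent.Helper61.TQ

/-! ### length of the code of a program -/

lemma wr_append (l m : List ℕ) : wr (l ++ m) = wr l ++ wr m := by
  unfold wr
  rw [List.flatMap_append]

lemma ser_append (l m : List (List ℕ)) : ser (l ++ m) = ser l ++ ser m := by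
  unfold ser
  rw [List.flatMap_append]

/-- contribution of the advice words -/
def wl (tb : List (List ℕ)) : ℕ := (wr ((ser tb).map (fun a => a + 1))).length

lemma enp_length (M : OTM) : ∃ C, ∀ tb, (enp (prog M tb)).length = C + wl tb := by
  refine ⟨(wr ((ser (hdr M)).map (fun a => a + 1))).length +
    (wr ([0] ++ ser ((tabl M).map ser))).length, fun tb => ?_⟩
  unfold enp prog wl
  rw [List.map_cons]
  have h : ser (ser (hdr M ++ tb) :: (tabl M).map ser) =
      (ser (hdr M ++ tb)).map (fun a => a + 1) ++ ([0] ++ ser ((tabl M).map ser)) := by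
    simp [ser]
  rw [h, ser_append, List.map_append, wr_append, wr_append, List.length_append, List.length_append]
  omega

lemma wr_bits_length (u : W) : (wr (((u.map bit).map (fun a => a + 1)).map (fun a => a + 1))).length
    ≤ 4 * u.length := by
  induction u with
  | nil => simp [wr]
  | cons b u ih =>
    have h : wr ((((b :: u).map bit).map (fun a => a + 1)).map (fun a => a + 1)) =
        (List.replicate (bit b + 1 + 1) true ++ [false]) ++
          wr (((u.map bit).map (fun a => a + 1)).map (fun a => a + 1)) := by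
      simp [wr]
    have h2 : bit b ≤ 1 := by cases b <;> simp [bit]
    rw [h, List.length_append, List.length_append, List.length_replicate, List.length_cons,
      List.length_cons, List.length_nil]
    omega

lemma wl_le (a : ℕ → W) (l : List ℕ) (B : ℕ) (hB : ∀ n ∈ l, 4 * (a n).length + 2 ≤ B) :
    wl (l.map (fun n => (a n).map bit)) ≤ l.length * B := by
  induction l with
  | nil => simp [wl, wr, ser]
  | cons n l ih =>
    have h1 := ih (fun m hm => hB m (List.mem_cons_of_mem _ hm))
    have h2 := hB n List.mem_cons_self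
    unfold wl at h1 ⊢
    have h3 : (ser ((n :: l).map (fun n => (a n).map bit))).map (fun a => a + 1) =
        ((((a n).map bit).map (fun a => a + 1)).map (fun a => a + 1) ++ [1]) ++
          (ser (l.map (fun n => (a n).map bit))).map (fun a => a + 1) := by
      simp [ser]
    rw [h3, wr_append, wr_append, List.length_append, List.length_append, List.length_cons]
    have h4 := wr_bits_length (a n)
    have h5 : (wr [1]).length = 2 := rfl
    have h6 : (l.length + 1) * B = l.length * B + B := by ring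
    omega

lemma wl_atab_le (g : ℕ) (a : ℕ → W) (N B : ℕ) (hB : ∀ n ≤ N, 4 * (a n).length + 2 ≤ B) :
    wl (atab g a N) ≤ (N + 1) * B := by
  unfold atab
  refine (wl_le a _ B (fun n hn => ?_)).trans (Nat.mul_le_mul_right _ ?_)
  · have h1 := List.mem_of_mem_filter hn
    rw [List.mem_range] at h1
    exact hB n (by omega)
  · exact (List.length_filter_le _ _).trans (by rw [List.length_range])

lemma wl_append (l m : List (List ℕ)) : wl (l ++ m) = wl l + wl m := by
  unfold wl
  rw [ser_append, List.map_append, wr_append, List.length_append]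

lemma good_of_pow {g m : ℕ} (hm : Good g m) : Good g (m ^ (g + 2)) := by
  obtain ⟨i, rfl⟩ := hm
  exact ⟨i + 1, pow_step _ _⟩

lemma le_of_good_lt {g m n : ℕ} (hm : Good g m) (hn : Good g n) (h : n < m ^ (g + 2)) : n ≤ m :=
  (Nat.pow_le_pow_iff_left (by omega : g + 2 ≠ 0)).1 (good_pow hn (good_of_pow hm) h)

lemma filter_len {g m : ℕ} (hm : Good g m) :
    ((List.range (m ^ (g + 2))).filter (goodB g)).length ≤ m + 1 := by
  have h1 : ((List.range (m ^ (g + 2))).filter (goodB g)).Nodup :=
    List.Nodup.filter _ List.nodup_range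
  have h2 : ((List.range (m ^ (g + 2))).filter (goodB g)) ⊆ List.range (m + 1) := by
    intro n hn
    rw [List.mem_filter, List.mem_range, goodB_iff] at hn
    rw [List.mem_range]
    have := le_of_good_lt hm hn.2 hn.1
    omega
  have h3 := (List.Nodup.subperm h1 h2).length_le
  rwa [List.length_range] at h3

/-- the advice words of length at most `n / 16` for the special lengths up to `m ^ (g + 2)` -/
lemma wl_pow_le (g : ℕ) (a : ℕ → W) (ha : ∀ n, (a n).length ≤ n / 16) {m : ℕ} (hm : Good g m) :
    wl (atab g a (m ^ (g + 2))) ≤ (m + 1) * (m / 4 + 2) + (m ^ (g + 2) / 4 + 2) := by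
  unfold atab
  have hg : Good g (m ^ (g + 2)) := good_of_pow hm
  rw [List.range_succ, List.filter_append, List.map_append, wl_append]
  apply Nat.add_le_add
  · refine (wl_le a _ (m / 4 + 2) (fun n hn => ?_)).trans (Nat.mul_le_mul_right _ (filter_len hm))
    rw [List.mem_filter, List.mem_range, goodB_iff] at hn
    have h4 := le_of_good_lt hm hn.2 hn.1
    have h5 := ha n
    omega
  · have h : [m ^ (g + 2)].filter (goodB g) = [m ^ (g + 2)] := by
      rw [List.filter_cons, (goodB_iff _ _).2 hg]
      rfl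
    rw [h]
    refine (wl_le a [m ^ (g + 2)] (m ^ (g + 2) / 4 + 2) (fun n hn => ?_)).trans ?_
    · rw [List.mem_singleton] at hn
      subst hn
      have h5 := ha (m ^ (g + 2))
      omega
    · simp

lemma setA_good (g : ℕ) (D : W → Bool) : ∀ w ∈ setA g D, Good g w.length :=
  fun w hw => (goodB_iff _ _).1 hw.1

lemma setA_true {g : ℕ} (D : W → Bool) (x : W) (hg : Good g x.length) (hx : hd x false = true) :
    x ∈ setA g D ↔ D x = true := by
  unfold setA
  rw [Set.mem_setOf_eq, (goodB_iff _ _).2 hg, hx]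
  have h : hd0 x = false := by
    cases x with
    | nil => simp [hd, lcase] at hx
    | cons b x =>
      have hb : b = true := hx
      subst hb
      rfl
  rw [h]
  simp

/-! ### diagonalization -/

/-- the diagonal set -/
def Dg (g K : ℕ) (x : W) : Bool := !(EV g K (dec (unpad x.tail)) x)

theorem ptf_Dg (g K : ℕ) : PTf (Dg g K) := by
  have h := ptf_EV g K (γ := W) (P := fun x => dec (unpad x.tail)) (x := fun x => x) (by fun_prop)
    (by fun_prop)
  unfold Dg
  fun_prop

theorem diag (g k : ℕ) : ¬ SelfReducible (fun n => n ^ g + g) (fun n => n ^ k + k) (fun n => n / 16)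
    (setA g (Dg g (2 * k + 2))) := by
  rintro ⟨M, a, ha, hM⟩
  obtain ⟨C, hC⟩ := enp_length M
  obtain ⟨m, hm, hm1⟩ : ∃ m, Good g m ∧ C + 100 ≤ m := ⟨nlen g (C + 100), nlen_good _ _, le_nlen _ _⟩
  have hg := good_of_pow hm
  obtain ⟨N, hN⟩ : ∃ N, m ^ (g + 2) = N := ⟨_, rfl⟩
  have hmN : m * m ≤ N := by
    rw [← hN]
    exact sq_le_pow g m (by omega)
  have hw := wl_pow_le g a ha hm
  rw [hN] at hg hw
  set P := prog M (atab g a N) with hP
  have h1 : (enp P).length + 2 ≤ N := by
    rw [hP, hC]
    have h3 : (m + 1) * (m / 4 + 2) + (N / 4 + 2) + C + 2 ≤ N := by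
      obtain ⟨q, hq⟩ : ∃ q, m / 4 = q := ⟨_, rfl⟩
      have e1 : 4 * q ≤ m := by omega
      have e3 : 4 * (N / 4) ≤ N := Nat.mul_div_le _ _
      have e4 : 4 * ((m + 1) * (q + 2)) ≤ (m + 1) * (m + 8) := by
        calc 4 * ((m + 1) * (q + 2)) = (m + 1) * (4 * q + 8) := by ring
          _ ≤ (m + 1) * (m + 8) := Nat.mul_le_mul_left _ (by omega)
      have e5 : (m + 1) * (m + 8) = m * m + 9 * m + 8 := by ring
      have e6 : 100 * m ≤ m * m := Nat.mul_le_mul_right _ (by omega)
      rw [hq]
      omega
    omega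
  set x : W := true :: pad (N - 1) (enp P) with hx
  have hxl : x.length = N := by
    rw [hx, List.length_cons, pad_length (by omega)]
    omega
  have h2 := EV_corr g k (setA g (Dg g (2 * k + 2))) (setA_good _ _) M a hM N N x (by omega)
    (by omega) (by rw [hxl]; exact hg)
  rw [setA_true _ x (by rw [hxl]; exact hg) rfl] at h2
  have h3 : Dg g (2 * k + 2) x = !(EV g (2 * k + 2) P x) := by
    unfold Dg
    have h4 : x.tail = pad (N - 1) (enp P) := rfl
    rw [h4, unpad_pad, dec_enp]
  rw [h3, ← hP] at h2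
  cases h5 : EV g (2 * k + 2) P x <;> simp [h5] at h2

/-! ### polynomial advice -/

theorem ppoly {L : Set W} (hL : InNP L) (hL2 : ¬ InPpoly L) (g k : ℕ) :
    ¬ SelfReducible (fun n => n ^ g + g) (fun n => n ^ k + k) (fun n => n ^ k + k)
      (setA g (fun _ => false)) := by
  rintro ⟨M, a, ha, hM⟩
  apply hL2
  obtain ⟨f, hf, hfL⟩ := st_SATHARD (fun x : W => x ∈ L) ((cls_np L).1 hL)
  obtain ⟨p, hp⟩ : ∃ p : Polynomial ℕ, ∀ u : W, (f u).length ≤ p.eval u.length := by
    refine cls_word (hf.sz_le.mono (fun u => ?_))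
    have := length_lt_sz (f u)
    omega
  obtain ⟨C, hC⟩ := enp_length M
  refine ⟨fun q => EV g (2 * k + 2) (dec q.2) (fA g (f q.1)),
    fun n => enp (prog M (atab g a (2 + (p.eval n + 2) ^ (g + 2)))),
    Polynomial.C C + ((2 + (p + 2) ^ (g + 2)) + 1) *
      (4 * ((2 + (p + 2) ^ (g + 2)) ^ k + Polynomial.C k) + 2), ?_, ?_, ?_⟩
  · rw [st_CLS.2.2.1]
    have h1 : PTf (fun q : W × W => fA g (f q.1)) :=
      PTf.comp (ptf_fA g) (PTf.comp hf (PTf.fst PTf.id))
    exact ptf_EV g _ (by fun_prop) h1
  · intro n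
    rw [hC]
    set N := 2 + (p.eval n + 2) ^ (g + 2) with hN
    have h1 : wl (atab g a N) ≤ (N + 1) * (4 * (N ^ k + k) + 2) := by
      refine wl_atab_le g a N _ (fun j hj => ?_)
      have h2 : (a j).length ≤ j ^ k + k := ha j
      have h3 : j ^ k ≤ N ^ k := Nat.pow_le_pow_left hj k
      omega
    have h2 : Polynomial.eval n (Polynomial.C C + ((2 + (p + 2) ^ (g + 2)) + 1) *
        (4 * ((2 + (p + 2) ^ (g + 2)) ^ k + Polynomial.C k) + 2)) =
        C + (N + 1) * (4 * (N ^ k + k) + 2) := by
      simp [hN]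
    rw [h2]
    omega
  · intro u
    have h0 := fA_length g (f u)
    have h1 : (fA g (f u)).length ≤ 2 + (p.eval u.length + 2) ^ (g + 2) := by
      rw [h0]
      refine (nlen_le _ _).trans ?_
      have h3 := hp u
      have h2 : ((f u).length + 2) ^ (g + 2) ≤ (p.eval u.length + 2) ^ (g + 2) :=
        Nat.pow_le_pow_left (by omega) _
      omega
    have h2 := EV_corr g k (setA g (fun _ => false)) (setA_good _ _) M a hM
      (2 + (p.eval u.length + 2) ^ (g + 2)) _ (fA g (f u)) le_rfl h1
      (by rw [h0]; exact nlen_good _ _)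
    show u ∈ L ↔ EV g (2 * k + 2) (dec (enp (prog M _))) (fA g (f u)) = true
    rw [dec_enp, h2, ← fA_mem]
    exact hfL u

/-- these sets are NP-complete -/
theorem npc_setA (c : ℕ) {D : W → Bool} (hD : PTf D) : NPComplete (setA c D) := by
  refine ⟨(cls_np _).2 (npf_setA c hD), fun L hL => ?_⟩
  obtain ⟨f, hf, hfL⟩ := st_SATHARD (fun x : W => x ∈ L) ((cls_np L).1 hL)
  refine ⟨fun x => fA c (f x), (cls_fun _).2 (PTf.comp (ptf_fA c) hf), fun x => ?_⟩
  rw [← fA_mem]
  exact hfL x

theorem fixedTime (c k : ℕ) : ∃ A : Set (List Bool), NPComplete A ∧ PIso SAT A ∧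
    ¬ SelfReducible (fun n => n ^ c + c) (fun n => n ^ k + k) (fun n => n / 16) A :=
  ⟨setA c (Dg c (2 * k + 2)), npc_setA c (ptf_Dg _ _), pIso_setA c (ptf_Dg _ _), diag c k⟩

theorem polyAdvice (h : ∃ L : Set (List Bool), InNP L ∧ ¬ InPpoly L) (c : ℕ) :
    ∃ A : Set (List Bool), NPComplete A ∧ PIso SAT A ∧
      ∀ k : ℕ, ¬ SelfReducible (fun n => n ^ c + c) (fun n => n ^ k + k) (fun n => n ^ k + k) A := by
  obtain ⟨L, hL, hL2⟩ := h
  exact ⟨setA c (fun _ => false), npc_setA c (by fun_prop), pIso_setA c (by fun_prop),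
    fun k => ppoly hL hL2 c k⟩

end Pool.Agent.Helper82.SR
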