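import Pool.Agent.Helper82.SR.Base

set_option autoImplicit false

/-! Oracle machines as data; the universal evaluation of self-reductions. -/

namespace Pool.Agent.Helper82.SR

open Pool.Agent.Helper58 Pool.Agent.Helper53.CL Pool.Agent.Helper52.Grid Pool.Agent.Helper61.TQ

variable {α β γ : Type} [Enc α] [Enc β] [Enc γ]

/-! ### zip -/

lemma sz_zip_le' (l : List α) (m : List β) : sz (l.zip m) ≤ sz l + sz m := by
  induction l generalizing m with
  | nil => simp [sz_lnil]
  | cons a l ih =>
    cases m with
    | nil => simp [sz_lnil]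
    | cons b m =>
      rw [List.zip_cons_cons, sz_lcons, sz_lcons, sz_lcons, sz_pair]
      have := ih m
      omega

/-- step of the zip computation -/
def zipS (s : List (α × β) × List β) (a : α) : List (α × β) × List β :=
  lcase s.2 (s.1, []) (fun b t => (s.1 ++ [(a, b)], t))

omit [Enc α] [Enc β] in
lemma foldl_zipS (l : List α) (m : List β) (acc : List (α × β)) :
    l.foldl zipS (acc, m) = (acc ++ l.zip m, m.drop l.length) := by
  induction l generalizing m acc with
  | nil => simp
  | cons a l ih =>
    rw [List.foldl_cons]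
    cases m with
    | nil => simp [zipS, lcase, ih]
    | cons b m => simp [zipS, lcase, ih]

@[fun_prop] theorem ptf_zipS {l : γ → List α} {m : γ → List β} (hl : PTf l) (hm : PTf m) :
    PTf (fun x => (l x).zip (m x)) := by
  have := PTf.foldl (step := fun _ s a => zipS s a) (init := fun x => (([] : List (α × β)), m x))
    (B := fun x => sz (l x) + sz (m x) + sz (m x) + 1) hl (by fun_prop)
    (by unfold zipS; fun_prop)
    (((hl.sz_le.add hm.sz_le).add hm.sz_le).add (PB.const 1)) (by
      intro x i
      rw [foldl_zipS, sz_pair, List.nil_append]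
      have h1 := sz_zip_le' ((l x).take i) (m x)
      have h2 := sz_take_le (l x) i
      have h3 := sz_drop_le (m x) ((l x).take i).length
      omega)
  exact (PTf.fst this).congr (fun x => by rw [foldl_zipS]; simp)

/-! ### programs -/

/-- programs: `([params, query states, accepting states, rejecting states] ++ advice words) :: table`,
the entries of the table are `[key, [new state], new top of stack 0, ...]` -/
abbrev Prg := List (List (List ℕ))

def seg (P : Prg) (i : ℕ) : List ℕ := (hd P []).getD i []
def par (P : Prg) (j : ℕ) : ℕ := (seg P 0).getD j 0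

@[fun_prop] theorem ptf_seg {P : γ → Prg} {i : γ → ℕ} (hP : PTf P) (hi : PTf i) :
    PTf (fun x => seg (P x) (i x)) := by
  unfold seg
  fun_prop

@[fun_prop] theorem ptf_par {P : γ → Prg} (hP : PTf P) (i : ℕ) : PTf (fun x => par (P x) i) := by
  unfold par
  fun_prop

/-- the first `r` entries -/
def tk (r : ℕ) (l : List ℕ) : List ℕ := (l.zipIdx.filter fun p => decide (p.2 < r)).map fun p => p.1

@[fun_prop] theorem ptf_tk {r : γ → ℕ} {l : γ → List ℕ} (hr : PTf r) (hl : PTf l) :
    PTf (fun x => tk (r x) (l x)) := by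
  unfold tk
  fun_prop

lemma tk_aux (r : ℕ) (l : List ℕ) (k : ℕ) :
    ((l.zipIdx k).filter fun p => decide (p.2 < r)).map (fun p => p.1) = l.take (r - k) := by
  induction l generalizing k with
  | nil => simp
  | cons a l ih =>
    rw [List.zipIdx_cons, List.filter_cons]
    by_cases h : k < r
    · simp only [h, decide_true, if_true]
      rw [List.map_cons, ih]
      obtain ⟨m, hm⟩ : ∃ m, r - k = m + 1 := ⟨r - k - 1, by omega⟩
      have h2 : r - (k + 1) = m := by omega
      rw [hm, h2, List.take_succ_cons]
    · simp only [h, decide_false]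
      have h2 : r - k = 0 := by omega
      have h3 : r - (k + 1) = 0 := by omega
      rw [h2, List.take_zero]
      simp only [Bool.false_eq_true, if_false]
      rw [ih, h3, List.take_zero]

lemma tk_eq (r : ℕ) (l : List ℕ) : tk r l = l.take r := tk_aux r l 0

/-- the key of a configuration -/
def key (r b q : ℕ) (s : List (List ℕ)) : List ℕ :=
  q :: b :: s.flatMap (fun l => (tk r l).map (fun a => a + 1) ++ [0])

@[fun_prop] theorem ptf_key {r b q : γ → ℕ} {s : γ → List (List ℕ)} (hr : PTf r) (hb : PTf b)
    (hq : PTf q) (hs : PTf s) : PTf (fun x => key (r x) (b x) (q x) (s x)) := by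
  unfold key
  fun_prop

/-- the entry of the table with the given key -/
def fnd (P : Prg) (k : List ℕ) : List (List ℕ) :=
  hd (P.tail.filter (fun e => decide (hd e [] = k))) []

@[fun_prop] theorem ptf_fnd {P : γ → Prg} {k : γ → List ℕ} (hP : PTf P) (hk : PTf k) :
    PTf (fun x => fnd (P x) (k x)) := by
  unfold fnd
  fun_prop

/-- put new tops on the stacks -/
def tops (r : ℕ) (t s : List (List ℕ)) : List (List ℕ) :=
  (t.zip (s.map (fun l => l.drop r))).map (fun p => p.1 ++ p.2)

@[fun_prop] theorem ptf_tops {r : γ → ℕ} {t s : γ → List (List ℕ)} (hr : PTf r) (ht : PTf t)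
    (hs : PTf s) : PTf (fun x => tops (r x) (t x) (s x)) := by
  unfold tops
  fun_prop

/-- one step, with the answer `b` of the oracle -/
def stp (P : Prg) (b : ℕ) (c : ℕ × List (List ℕ)) : ℕ × List (List ℕ) :=
  lcase (fnd P (key (par P 0) b c.1 c.2)) c
    (fun _ e => (hd (hd e []) 0, tops (par P 0) e.tail c.2))

@[fun_prop] theorem ptf_stp {P : γ → Prg} {b : γ → ℕ} {c : γ → ℕ × List (List ℕ)} (hP : PTf P)
    (hb : PTf b) (hc : PTf c) : PTf (fun x => stp (P x) (b x) (c x)) := by
  unfold stp
  fun_prop

/-- the query word -/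
def qw (P : Prg) (s : List (List ℕ)) : W := (s.getD (par P 4) []).map (fun a => decide (a = par P 5))

@[fun_prop] theorem ptf_qw {P : γ → Prg} {s : γ → List (List ℕ)} (hP : PTf P) (hs : PTf s) :
    PTf (fun x => qw (P x) (s x)) := by
  unfold qw
  fun_prop

variable (g : ℕ)

/-- number of special lengths below `n` -/
def lvl (n : ℕ) : ℕ := ((List.range n).filter (goodB g)).length

@[fun_prop] theorem ptf_lvl {n : γ → ℕ} (hn : PTf n) : PTf (fun x => lvl g (n x)) := by
  unfold lvl
  fun_prop

/-- the initial configuration -/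
def ini (P : Prg) (x : W) : ℕ × List (List ℕ) :=
  (par P 6, (List.range (par P 7)).map (fun i =>
    if i = par P 1 then x.map (fun b => bif b then par P 3 else par P 2) else
    if i = par P 8 then (seg P (4 + lvl g x.length)).map (fun a => ncase a (par P 9) (fun _ => par P 10))
    else []))

@[fun_prop] theorem ptf_ini {P : γ → Prg} {x : γ → W} (hP : PTf P) (hx : PTf x) :
    PTf (fun a => ini g (P a) (x a)) := by
  unfold ini
  fun_prop

/-- a computation in progress: length of the input, clock, configuration -/
abbrev Frame := ℕ × (ℕ × (ℕ × List (List ℕ)))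

/-- the initial frame -/
def frm (K : ℕ) (P : Prg) (x : W) : Frame := (x.length, (x.length ^ K, ini g P x))

@[fun_prop] theorem ptf_frm (K : ℕ) {P : γ → Prg} {x : γ → W} (hP : PTf P) (hx : PTf x) :
    PTf (fun a => frm g K (P a) (x a)) := by
  have h : PTf (fun a => (x a).length ^ K) := ptf_pow (by fun_prop) K
  unfold frm
  fun_prop

def memB (a : ℕ) (l : List ℕ) : Bool := l.any (fun b => decide (b = a))

@[fun_prop] theorem ptf_memB {a : γ → ℕ} {l : γ → List ℕ} (ha : PTf a) (hl : PTf l) :
    PTf (fun x => memB (a x) (l x)) := by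
  unfold memB
  fun_prop

lemma memB_iff (a : ℕ) (l : List ℕ) : memB a l = true ↔ a ∈ l := by
  simp [memB]

/-- is an oracle call to be simulated? -/
def ask (P : Prg) (n len : ℕ) (c : ℕ × List (List ℕ)) : Bool :=
  memB c.1 (seg P 1) && (decide ((qw P c.2).length < len) && (decide ((qw P c.2).length ≤ n) &&
    goodB g (qw P c.2).length))

@[fun_prop] theorem ptf_ask {P : γ → Prg} {n len : γ → ℕ} {c : γ → ℕ × List (List ℕ)} (hP : PTf P)
    (hn : PTf n) (hl : PTf len) (hc : PTf c) : PTf (fun x => ask g (P x) (n x) (len x) (c x)) := by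
  unfold ask
  fun_prop

/-- the state of the evaluation: stack of frames, answer of the last call (if any) -/
abbrev EState := List Frame × List Bool

/-- work on the top frame, no answer pending -/
def FA (K : ℕ) (P : Prg) (n : ℕ) (f : Frame) (fs : List Frame) : EState :=
  ncase f.2.1 (fs, [false]) (fun k =>
    bif memB f.2.2.1 (seg P 2) then (fs, [true]) else
    bif memB f.2.2.1 (seg P 3) then (fs, [false]) else
    bif ask g P n f.1 f.2.2 then (frm g K P (qw P f.2.2.2) :: (f.1, (k, f.2.2)) :: fs, [])
    else ((f.1, (k, stp P 0 f.2.2)) :: fs, []))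

theorem ptf_FA (K : ℕ) {P : γ → Prg} {n : γ → ℕ} {f : γ → Frame} {fs : γ → List Frame}
    (hP : PTf P) (hn : PTf n) (hf : PTf f) (hfs : PTf fs) :
    PTf (fun x => FA g K (P x) (n x) (f x) (fs x)) := by
  unfold FA
  fun_prop

/-- one step of the evaluation -/
def FF (K : ℕ) (P : Prg) (n : ℕ) (st : EState) : EState :=
  lcase st.1 st (fun f fs => lcase st.2 (FA g K P n f fs)
    (fun b _ => ((f.1, (f.2.1, stp P (bif b then 1 else 0) f.2.2)) :: fs, [])))

theorem ptf_FF (K : ℕ) {P : γ → Prg} {n : γ → ℕ} {st : γ → EState}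
    (hP : PTf P) (hn : PTf n) (hs : PTf st) : PTf (fun x => FF g K (P x) (n x) (st x)) := by
  unfold FF
  have h := ptf_FA g (γ := γ × (Frame × List Frame)) K (P := fun p => P p.1) (n := fun p => n p.1)
    (f := fun p => p.2.1) (fs := fun p => p.2.2) (by fun_prop) (by fun_prop) (by fun_prop)
    (by fun_prop)
  fun_prop

end Pool.Agent.Helper82.SR
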