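import Pool.Agent.Helper82.SR.Eval

set_option autoImplicit false

/-! The universal evaluation of self-reductions is correct. -/

namespace Pool.Agent.Helper82.SR

open Pool.Agent.Helper58 Pool.Agent.Helper53.CL Pool.Agent.Helper52.Grid Pool.Agent.Helper61.TQ

variable (g : ℕ)

/-- the answer of the oracle which is simulated -/
def oans (O : W → Bool) (P : Prg) (len : ℕ) (c : ℕ × List (List ℕ)) : Bool :=
  ask g P len len c && O (qw P c.2)

/-- run with the oracle `O` for a number of steps -/
def run (g : ℕ) (O : W → Bool) (P : Prg) (len : ℕ) : ℕ → ℕ × List (List ℕ) → Bool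
  | 0, _ => false
  | k + 1, c => bif memB c.1 (seg P 2) then true else bif memB c.1 (seg P 3) then false else
      run g O P len k (stp P (bif oans g O P len c then 1 else 0) c)

lemma foldl_rep {σ : Type} (f : σ → σ) (T : ℕ) (s : σ) :
    (List.replicate T ()).foldl (fun st _ => f st) s = f^[T] s := by
  induction T generalizing s with
  | zero => rfl
  | succ T ih =>
    rw [List.replicate_succ, List.foldl_cons, ih, Function.iterate_succ_apply]

lemma ask_eq {P : Prg} {n len : ℕ} (h : len ≤ n) (c : ℕ × List (List ℕ)) :
    ask g P n len c = ask g P len len c := by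
  unfold ask
  by_cases h1 : (qw P c.2).length < len
  · have h2 : (qw P c.2).length ≤ n := by omega
    have h3 : (qw P c.2).length ≤ len := by omega
    simp [h1, h2, h3]
  · simp [h1]

lemma ask_good {P : Prg} {n len : ℕ} {c : ℕ × List (List ℕ)} (h : ask g P n len c = true) :
    Good g (qw P c.2).length ∧ (qw P c.2).length < len := by
  unfold ask at h
  simp only [Bool.and_eq_true, decide_eq_true_eq] at h
  exact ⟨(goodB_iff _ _).1 h.2.2.2, h.2.1⟩

lemma sq_pow_le {a len K : ℕ} (h : a * a ≤ len) : a ^ (2 * K + 2) ≤ len ^ (K + 1) := by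
  have h1 : a ^ (2 * K + 2) = (a * a) ^ (K + 1) := by
    rw [← pow_two, ← pow_mul]
    congr 1
  rw [h1]
  exact Nat.pow_le_pow_left h _

lemma run_inner (K : ℕ) (P : Prg) (n len : ℕ) (hl : len ≤ n) (hg : Good g len) (O : W → Bool)
    (hO : ∀ w : W, Good g w.length → w.length < len → ∀ fs : List Frame, ∃ m ≤ w.length ^ (2 * K + 2),
      (FF g K P n)^[m] (frm g K P w :: fs, []) = (fs, [O w])) (fs : List Frame) :
    ∀ (k : ℕ) (c : ℕ × List (List ℕ)), ∃ m ≤ k * (2 + len ^ (K + 1)) + 1,
      (FF g K P n)^[m] ((len, (k, c)) :: fs, []) = (fs, [run g O P len k c]) := by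
  intro k
  induction k with
  | zero =>
    intro c
    exact ⟨1, by omega, rfl⟩
  | succ k ih =>
    intro c
    have hS : FF g K P n ((len, (k + 1, c)) :: fs, []) = bif memB c.1 (seg P 2) then (fs, [true]) else
        bif memB c.1 (seg P 3) then (fs, [false]) else
        bif ask g P n len c then (frm g K P (qw P c.2) :: (len, (k, c)) :: fs, [])
        else ((len, (k, stp P 0 c)) :: fs, []) := rfl
    have hR : run g O P len (k + 1) c = bif memB c.1 (seg P 2) then true else
        bif memB c.1 (seg P 3) then false else
        run g O P len k (stp P (bif oans g O P len c then 1 else 0) c) := rfl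
    have hk : (k + 1) * (2 + len ^ (K + 1)) = k * (2 + len ^ (K + 1)) + (2 + len ^ (K + 1)) := by ring
    rw [hR]
    cases h1 : memB c.1 (seg P 2)
    · simp only [cond_false]
      cases h2 : memB c.1 (seg P 3)
      · simp only [cond_false]
        cases h3 : ask g P n len c
        · obtain ⟨m, hm, hm2⟩ := ih (stp P 0 c)
          refine ⟨m + 1, by omega, ?_⟩
          rw [Function.iterate_succ_apply, hS, h1, h2, h3]
          simp only [cond_false]
          rw [hm2]
          have h4 : oans g O P len c = false := by
            unfold oans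
            rw [← ask_eq g hl, h3]
            rfl
          rw [h4]
          rfl
        · obtain ⟨hg1, hg2⟩ := ask_good g h3
          obtain ⟨m1, hm1, hm1'⟩ := hO (qw P c.2) hg1 hg2 ((len, (k, c)) :: fs)
          obtain ⟨m, hm, hm2⟩ := ih (stp P (bif O (qw P c.2) then 1 else 0) c)
          have h5 := sq_pow_le (K := K) (good_sq hg1 hg hg2)
          refine ⟨m + (1 + (m1 + 1)), by omega, ?_⟩
          have e1 : (FF g K P n)^[m1 + 1] ((len, (k + 1, c)) :: fs, []) =
              ((len, (k, c)) :: fs, [O (qw P c.2)]) := by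
            rw [Function.iterate_succ_apply, hS, h1, h2, h3]
            simp only [cond_false, cond_true]
            exact hm1'
          have h6 : (FF g K P n)^[1] ((len, (k, c)) :: fs, [O (qw P c.2)]) =
            ((len, (k, stp P (bif O (qw P c.2) then 1 else 0) c)) :: fs, []) := rfl
          rw [Function.iterate_add_apply, Function.iterate_add_apply, e1, h6, hm2]
          have h4 : oans g O P len c = O (qw P c.2) := by
            unfold oans
            rw [← ask_eq g hl, h3]
            rfl
          rw [h4]
      · refine ⟨1, by omega, ?_⟩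
        rw [Function.iterate_one, hS, h1, h2]
        rfl
    · refine ⟨1, by omega, ?_⟩
      rw [Function.iterate_one, hS, h1]
      rfl

lemma clock_le {K len : ℕ} (hK : 1 ≤ K) (hl : 2 ≤ len) :
    len ^ K * (2 + len ^ (K + 1)) + 1 ≤ len ^ (2 * K + 2) := by
  have h1 : len ^ K * len ^ (K + 1) = len ^ (2 * K + 1) := by
    rw [← pow_add]; congr 1; ring
  have h2 : len ^ (2 * K + 2) = len ^ (2 * K + 1) * len := pow_succ _ _
  have h3 : len ^ (2 * K + 1) * 2 ≤ len ^ (2 * K + 1) * len := Nat.mul_le_mul_left _ hl
  have h4 : len ^ (K + 2) ≤ len ^ (2 * K + 1) := Nat.pow_le_pow_right (by omega) (by omega)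
  have h5 : len ^ (K + 2) = len ^ K * (len * len) := by ring
  have h6 : len ^ K * (2 * 2) ≤ len ^ K * (len * len) :=
    Nat.mul_le_mul_left _ (Nat.mul_le_mul hl hl)
  have h7 : 1 ≤ len ^ K := Nat.one_le_pow _ _ (by omega)
  rw [mul_add, h1]
  omega

lemma FF_done (K : ℕ) (P : Prg) (n : ℕ) (v : Bool) (m : ℕ) :
    (FF g K P n)^[m] ([], [v]) = ([], [v]) := by
  induction m with
  | zero => rfl
  | succ m ih =>
    rw [Function.iterate_succ_apply]
    exact ih

theorem run_outer (K : ℕ) (hK : 1 ≤ K) (P : Prg) : ∀ (N : ℕ) (x : W), x.length ≤ N → Good g x.length →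
    (∀ n, x.length ≤ n → ∀ fs : List Frame, ∃ m ≤ x.length ^ (2 * K + 2),
      (FF g K P n)^[m] (frm g K P x :: fs, []) = (fs, [EV g K P x])) ∧
    EV g K P x = run g (EV g K P) P x.length (x.length ^ K) (ini g P x) := by
  intro N
  induction N with
  | zero =>
    intro x hx hg
    have := good_pos hg
    omega
  | succ N ih =>
    intro x hx hg
    have hO : ∀ n, x.length ≤ n → ∀ w : W, Good g w.length → w.length < x.length →
        ∀ fs : List Frame, ∃ m ≤ w.length ^ (2 * K + 2),
        (FF g K P n)^[m] (frm g K P w :: fs, []) = (fs, [EV g K P w]) := by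
      intro n hn w hw hw2 fs
      exact (ih w (by omega) hw).1 n (by omega) fs
    have hc := clock_le hK (good_pos hg)
    have hv : EV g K P x = run g (EV g K P) P x.length (x.length ^ K) (ini g P x) := by
      obtain ⟨m, hm, hm2⟩ := run_inner g K P x.length x.length le_rfl hg (EV g K P) (hO _ le_rfl) []
        (x.length ^ K) (ini g P x)
      have h1 : x.length ^ (2 * K + 2) = (x.length ^ (2 * K + 2) - m) + m := by omega
      have h2 : (FF g K P x.length)^[x.length ^ (2 * K + 2)] ([frm g K P x], []) =
          ([], [run g (EV g K P) P x.length (x.length ^ K) (ini g P x)]) := by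
        rw [h1, Function.iterate_add_apply]
        rw [show (([frm g K P x], []) : EState) = ((x.length, (x.length ^ K, ini g P x)) :: [], []) from rfl,
          hm2, FF_done]
      have h3 : EV g K P x = hd ((List.replicate (x.length ^ (2 * K + 2)) ()).foldl
        (fun st _ => FF g K P x.length st) ([frm g K P x], [])).2 false := rfl
      rw [h3, foldl_rep, h2]
      rfl
    refine ⟨?_, hv⟩
    intro n hn fs
    obtain ⟨m, hm, hm2⟩ := run_inner g K P n x.length hn hg (EV g K P) (hO n hn) fs
      (x.length ^ K) (ini g P x)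
    refine ⟨m, by omega, ?_⟩
    rw [hv]
    exact hm2

/-- the recursion satisfied by the evaluation -/
theorem EV_eq {K : ℕ} (hK : 1 ≤ K) (P : Prg) {x : W} (hg : Good g x.length) :
    EV g K P x = run g (EV g K P) P x.length (x.length ^ K) (ini g P x) :=
  (run_outer g K hK P x.length x le_rfl hg).2

end Pool.Agent.Helper82.SR
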