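import Pool.Agent.Helper82.SR.BH
import Pool.Agent.Helper56.TQ.SATHARD
import Pool.Agent.Helper81.TQ.SATNP

set_option autoImplicit false

/-! NP languages reduce to SAT by invertible length-increasing reductions. -/

namespace Pool.Agent.Helper82.SR

open Pool.Agent.Helper58 Pool.Agent.Helper53.CL Pool.Agent.Helper52.Grid Pool.Agent.Helper61.TQ

variable {γ : Type} [Enc γ]

/-- digits -/
def dg (x : W) : W := (x ++ [true]).flatMap (fun b => [false, false, b])

/-- the padded formula -/
def sg (l : List Cl) (x : W) : W :=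
  ((dg x ++ [false, true, false]) ++ ((dg x ++ [false, true, false]) ++ [false, true, true]) ++
    [true, false, true]) ++ SATHARD_fc l ++ [true, false, false]

/-- reading the digits at the beginning -/
def rstep (s : ℕ × W) (b : Bool) : ℕ × W :=
  if s.1 = 0 then (1, s.2) else if s.1 = 1 then (if b = true then (3, s.2) else (2, s.2))
  else if s.1 = 2 then (0, s.2 ++ [b]) else s

/-- recover `x` -/
def si (y : W) : W := ((y.foldl rstep (0, [])).2.reverse.tail).reverse

lemma rfold_done (l u : W) : l.foldl rstep (3, u) = (3, u) := by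
  induction l with
  | nil => rfl
  | cons b l ih => rw [List.foldl_cons]; exact ih

lemma rfold_dg (x : W) : ∀ (u l : W),
    (x.flatMap (fun b => [false, false, b]) ++ l).foldl rstep (0, u) =
      l.foldl rstep (0, u ++ x) := by
  induction x with
  | nil => intro u l; simp
  | cons b x ih =>
    intro u l
    rw [List.flatMap_cons, List.append_assoc]
    show (false :: false :: b :: (x.flatMap (fun b => [false, false, b]) ++ l)).foldl rstep (0, u) = _
    rw [List.foldl_cons, List.foldl_cons, List.foldl_cons]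
    show (x.flatMap (fun b => [false, false, b]) ++ l).foldl rstep (0, u ++ [b]) = _
    rw [ih]
    simp

lemma si_sg (l : List Cl) (x : W) : si (sg l x) = x := by
  unfold si sg dg
  simp only [List.append_assoc]
  rw [rfold_dg]
  show (((false :: true :: false :: _ : W).foldl rstep (0, [] ++ (x ++ [true]))).2.reverse.tail).reverse = x
  rw [List.foldl_cons, List.foldl_cons]
  show (((_ : W).foldl rstep (3, [] ++ (x ++ [true]))).2.reverse.tail).reverse = x
  rw [rfold_done]
  simp

lemma sg_length (l : List Cl) (x : W) : x.length < (sg l x).length := by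
  have h : (dg x).length = 3 * (x.length + 1) := by
    unfold dg
    rw [List.length_flatMap]
    simp
    omega
  unfold sg
  simp only [List.length_append, h]
  omega

lemma sg_mem (l : List Cl) (x : W) : sg l x ∈ SAT ↔ ∃ Y, ∀ c ∈ l, Sat Y c := by
  obtain ⟨i, hi⟩ := satnp_exists_bits (x ++ [true]) (by simp [satnp_canon, hd, lcase])
  have h1 : sg l x = (Fm.and (Fm.or (Fm.var i) (Fm.neg (Fm.var i))) (SATHARD_ff l)).code := by
    unfold sg dg
    simp only [Fm.code, hi, SATHARD_fc_eq]
  rw [h1, SATHARD_mem, ← SATHARD_ff_sat]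
  constructor
  · rintro ⟨v, hv⟩
    refine ⟨v, ?_⟩
    rw [Fm.eval, Bool.and_eq_true] at hv
    exact hv.2
  · rintro ⟨v, hv⟩
    refine ⟨v, ?_⟩
    rw [Fm.eval, Bool.and_eq_true]
    refine ⟨?_, hv⟩
    simp [Fm.eval]

theorem ptf_si : PTf si := by
  unfold si
  have h : PTf (fun y : W => (y.foldl rstep (0, [])).2) := by
    refine PTf.snd (ptf_foldl_add (l := fun y : W => y) (init := fun _ => (0, ([] : W)))
      (step := fun _ s b => rstep s b) (K := fun _ => 20) (by fun_prop) (by fun_prop)
      (by unfold rstep; fun_prop) (PB.const _) ?_)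
    rintro x ⟨n, u⟩ b -
    have h1 := sz_append u [b]
    rw [sz_lcons, sz_lnil] at h1
    have h2 := sz_bool b
    unfold rstep
    simp only
    split_ifs
    · rw [sz_pair, sz_pair, sz_nat, sz_nat]; omega
    · rw [sz_pair, sz_pair, sz_nat, sz_nat]; omega
    · rw [sz_pair, sz_pair, sz_nat, sz_nat]; omega
    · rw [sz_pair, sz_pair, sz_nat, sz_nat]; omega
    · omega
  fun_prop

theorem ptf_dg {x : γ → W} (hx : PTf x) : PTf (fun a => dg (x a)) := by
  unfold dg
  fun_prop

theorem ptf_sg {l : γ → List Cl} {x : γ → W} (hl : PTf l) (hx : PTf x) :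
    PTf (fun a => sg (l a) (x a)) := by
  have h1 : PTf (fun a => SATHARD_fc (l a)) := SATHARD_pfc hl
  have h2 : PTf (fun a => dg (x a)) := ptf_dg hx
  unfold sg
  fun_prop

/-- invertible length-increasing reductions to SAT -/
theorem sat_inv {L : W → Prop} (hL : NPf L) : ∃ g : W → W, PTf g ∧ (∀ y, si (g y) = y) ∧
    (∀ y, y.length < (g y).length) ∧ ∀ y, L y ↔ g y ∈ SAT := by
  obtain ⟨V, B, hV, hB, hs, hc⟩ := hL
  have h1 : PTf (fun q : W × W => V q.1 (dc q.2)) := by
    have h2 : PTf (fun q : W × W => dc q.2) := ptf_dc (PTf.snd PTf.id)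
    exact PTf.comp hV (PTf.pair (PTf.fst PTf.id) h2)
  have h3 : PTf (fun a : W => 2 * B a) := by fun_prop
  obtain ⟨f, hf, hh⟩ := cook h1 h3
  refine ⟨fun a => sg (f a) a, ptf_sg hf (by fun_prop), fun y => si_sg _ _, fun y => sg_length _ _,
    fun a => ?_⟩
  rw [sg_mem, hh]
  constructor
  · intro h
    obtain ⟨w, hw, hv⟩ := hc a h
    exact ⟨ec (B a) w, ec_length hw, by simpa [dc_ec] using hv⟩
  · rintro ⟨z, -, hv⟩
    exact hs a (dc z) hv

end Pool.Agent.Helper82.SR
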