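import Pool.Agent.Helper82.SR.Loc
import Pool.Agent.Helper82.SR.Code
import Pool.Agent.Helper82.SR.Run

set_option autoImplicit false

/-! Every oracle machine is given by a program. -/

namespace Pool.Agent.Helper82.SR

open Turing Function
open Pool.Agent.Helper58 Pool.Agent.Helper53.CL Pool.Agent.Helper52.Grid Pool.Agent.Helper61.TQ

/-! ### numbering finite types -/

/-- numbers of the elements -/
noncomputable def cd {α : Type} [Fintype α] (a : α) : ℕ := (Fintype.equivFin α a).val

lemma cd_inj {α : Type} [Fintype α] : Injective (cd (α := α)) := fun a b h =>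
  (Fintype.equivFin α).injective (Fin.ext h)

/-- list of the elements with a property -/
noncomputable def els {α : Type} [Finite α] (p : α → Prop) : List α :=
  (Set.toFinite {a | p a}).toFinset.toList

lemma mem_els {α : Type} [Finite α] (p : α → Prop) (a : α) : a ∈ els p ↔ p a := by
  simp [els]

variable (M : OTM)

/-- stacks as lists of numbers -/
noncomputable def sl (S : ∀ k, List (M.Γ k)) : List (List ℕ) :=
  (List.finRange (Fintype.card M.K)).map (fun i => (S ((Fintype.equivFin M.K).symm i)).map cd)

/-- configurations in terms of numbers -/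
noncomputable def cf (c : M.Cfg) : ℕ × List (List ℕ) := (cd (c.l, c.var), sl M c.stk)

/-- depth of the machine -/
def mr : ℕ := Finset.univ.sup (fun p : M.Λ × Bool => dep (M.m p.1 p.2))

lemma dep_le (l : M.Λ) (b : Bool) : dep (M.m l b) ≤ mr M :=
  Finset.le_sup (f := fun p : M.Λ × Bool => dep (M.m p.1 p.2)) (Finset.mem_univ (l, b))

/-- tops of the stacks -/
abbrev Top := ∀ k, {l : List (M.Γ k) // l.length ≤ mr M}

instance finTop : Finite (Top M) := by
  have : ∀ k, Finite {l : List (M.Γ k) // l.length ≤ mr M} := fun k =>
    List.finite_length_le (M.Γ k) (mr M)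
  infer_instance

/-- result of a step -/
def res (b : Bool) (l : Option M.Λ) (v : M.σ) (S : ∀ k, List (M.Γ k)) : M.Cfg :=
  match l with
  | none => ⟨none, v, S⟩
  | some l => TM2.stepAux (M.m l b) v S

def bit (b : Bool) : ℕ := bif b then 1 else 0

lemma bit_inj : Injective bit := by
  intro a b h
  cases a <;> cases b <;> simp [bit] at h ⊢

/-- entry of the table -/
noncomputable def entr (p : Bool × ((Option M.Λ × M.σ) × Top M)) : List (List ℕ) :=
  key (mr M) (bit p.1) (cd p.2.1) (sl M (fun k => (p.2.2 k).1)) ::
    [cd ((res M p.1 p.2.1.1 p.2.1.2 (fun k => (p.2.2 k).1)).l,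
      (res M p.1 p.2.1.1 p.2.1.2 (fun k => (p.2.2 k).1)).var)] ::
    sl M (res M p.1 p.2.1.1 p.2.1.2 (fun k => (p.2.2 k).1)).stk

/-- the head of the program of the machine -/
noncomputable def hdr : List (List ℕ) :=
  [[mr M, cd M.inp, cd (M.inpΓ.symm false), cd (M.inpΓ.symm true), cd M.qry, cd (M.qryΓ.symm true),
      cd (some M.main, M.start), Fintype.card M.K, cd M.adv, cd (M.advΓ.symm false),
      cd (M.advΓ.symm true)],
    (els (fun q : Option M.Λ × M.σ => ∃ l, q.1 = some l ∧ M.m l true ≠ M.m l false)).map cd,
    (els (fun q : Option M.Λ × M.σ => q.1 = none ∧ M.acc q.2 = true)).map cd,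
    (els (fun q : Option M.Λ × M.σ => q.1 = none ∧ M.acc q.2 = false)).map cd]

/-- the table of the machine -/
noncomputable def tabl : List (List (List ℕ)) :=
  (els (fun _ : Bool × ((Option M.Λ × M.σ) × Top M) => True)).map (entr M)

/-- the program of the machine, with the list `tb` of advice words -/
noncomputable def prog (tb : List (List ℕ)) : Prg := (hdr M ++ tb) :: tabl M

lemma key_eq_ser (r b q : ℕ) (s : List (List ℕ)) : key r b q s = q :: b :: ser (s.map (tk r)) := by
  unfold key ser
  rw [List.flatMap_map]

lemma ser_inj : Injective ser := fun a b h => by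
  rw [← des_ser a, h, des_ser]

lemma sl_tk (r : ℕ) (S : ∀ k, List (M.Γ k)) : (sl M S).map (tk r) = sl M (fun k => (S k).take r) := by
  unfold sl
  rw [List.map_map]
  apply List.map_congr_left
  intro i _
  rw [Function.comp_apply, tk_eq, List.map_take]

lemma sl_inj : Injective (sl M) := by
  intro S T h
  unfold sl at h
  rw [List.map_inj_left] at h
  funext k
  have h1 := h (Fintype.equivFin M.K k) (List.mem_finRange _)
  have h2 := (List.map_injective_iff.2 cd_inj) h1
  have key : ∀ j, j = k → S j = T j → S k = T k := by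
    rintro j rfl h
    exact h
  exact key _ ((Fintype.equivFin M.K).symm_apply_apply k) h2

lemma key_sl (r : ℕ) (b q : ℕ) (S : ∀ k, List (M.Γ k)) :
    key r b q (sl M S) = key r b q (sl M (fun k => (S k).take r)) := by
  rw [key_eq_ser, key_eq_ser, sl_tk, sl_tk]
  simp only [List.take_take, min_self]

lemma fnd_eq (P : Prg) (k : List ℕ) (e0 : List (List ℕ)) (h0 : e0 ∈ P.tail) (h1 : hd e0 [] = k)
    (h2 : ∀ e ∈ P.tail, hd e [] = k → e = e0) : fnd P k = e0 := by
  unfold fnd
  have h3 : e0 ∈ P.tail.filter (fun e => decide (hd e [] = k)) := by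
    rw [List.mem_filter]
    exact ⟨h0, by simpa using h1⟩
  cases h4 : P.tail.filter (fun e => decide (hd e [] = k)) with
  | nil => rw [h4] at h3; simp at h3
  | cons e l =>
    have h5 : e ∈ P.tail.filter (fun e => decide (hd e [] = k)) := by
      rw [h4]; exact List.mem_cons_self
    rw [List.mem_filter] at h5
    have h6 : e = e0 := h2 e h5.1 (by simpa using h5.2)
    show e = e0
    exact h6

theorem stp_prog (tb : List (List ℕ)) (b : Bool) (l : M.Λ) (v : M.σ) (S : ∀ k, List (M.Γ k)) :
    stp (prog M tb) (bit b) (cf M ⟨some l, v, S⟩) = cf M (TM2.stepAux (M.m l b) v S) := by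
  have hp0 : par (prog M tb) 0 = mr M := rfl
  let t : Top M := fun k => ⟨(S k).take (mr M), by rw [List.length_take]; omega⟩
  have hf : fnd (prog M tb) (key (mr M) (bit b) (cd (some l, v)) (sl M S)) = entr M (b, ((some l, v), t)) := by
    apply fnd_eq
    · show _ ∈ tabl M
      unfold tabl
      exact List.mem_map_of_mem ((mem_els _ _).2 trivial)
    · rw [key_sl]
      rfl
    · intro e he h
      have he' : e ∈ tabl M := he
      unfold tabl at he'
      rw [List.mem_map] at he'
      obtain ⟨⟨b', q', t'⟩, -, rfl⟩ := he'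
      have h' : key (mr M) (bit b') (cd q') (sl M (fun k => (t' k).1)) =
        key (mr M) (bit b) (cd (some l, v)) (sl M S) := h
      rw [key_sl M _ _ _ S, key_eq_ser, key_eq_ser, sl_tk, sl_tk] at h'
      rw [List.cons.injEq, List.cons.injEq] at h'
      obtain ⟨h1, h2, h3⟩ := h'
      have h1' := cd_inj h1
      have h2' := bit_inj h2
      have h3' := sl_inj M (ser_inj h3)
      subst h1' h2'
      have h4 : t' = t := by
        funext k
        apply Subtype.ext
        have := congrFun h3' k
        simp only [List.take_take, min_self] at this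
        rw [List.take_of_length_le (t' k).2] at this
        exact this
      rw [h4]
  unfold stp
  rw [hp0]
  show lcase (fnd (prog M tb) (key (mr M) (bit b) (cd (some l, v)) (sl M S))) _ _ = _
  rw [hf, stepAux_take (M.m l b) v S (mr M) (dep_le M l b)]
  show (cd ((TM2.stepAux (M.m l b) v (fun k => (S k).take (mr M))).l,
    (TM2.stepAux (M.m l b) v (fun k => (S k).take (mr M))).var),
    tops (mr M) (sl M (TM2.stepAux (M.m l b) v (fun k => (S k).take (mr M))).stk) (sl M S)) = _
  unfold cf
  simp only
  congr 1
  unfold tops sl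
  rw [List.map_map, List.zip_map', List.map_map]
  apply List.map_congr_left
  intro i _
  simp

end Pool.Agent.Helper82.SR
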