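import Pool.Agent.Helper82.SR.Sim

set_option autoImplicit false

/-! The program of an oracle machine simulates the machine. -/

namespace Pool.Agent.Helper82.SR

open Turing Function
open Pool.Agent.Helper58 Pool.Agent.Helper53.CL Pool.Agent.Helper52.Grid Pool.Agent.Helper61.TQ

variable (M : OTM) (tb : List (List ℕ))

lemma mem_seg1 (q : Option M.Λ × M.σ) : memB (cd q) (seg (prog M tb) 1) = true ↔
    ∃ l, q.1 = some l ∧ M.m l true ≠ M.m l false := by
  rw [memB_iff]
  show cd q ∈ (els _).map cd ↔ _
  rw [List.mem_map_of_injective cd_inj, mem_els]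

lemma mem_seg2 (q : Option M.Λ × M.σ) : memB (cd q) (seg (prog M tb) 2) = true ↔
    q.1 = none ∧ M.acc q.2 = true := by
  rw [memB_iff]
  show cd q ∈ (els _).map cd ↔ _
  rw [List.mem_map_of_injective cd_inj, mem_els]

lemma mem_seg3 (q : Option M.Λ × M.σ) : memB (cd q) (seg (prog M tb) 3) = true ↔
    q.1 = none ∧ M.acc q.2 = false := by
  rw [memB_iff]
  show cd q ∈ (els _).map cd ↔ _
  rw [List.mem_map_of_injective cd_inj, mem_els]

lemma sl_getD (S : ∀ k, List (M.Γ k)) (k : M.K) : (sl M S).getD (cd k) [] = (S k).map cd := by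
  unfold sl cd
  have key : ∀ (g : M.K → List ℕ), ((List.finRange (Fintype.card M.K)).map
      (fun i => g ((Fintype.equivFin M.K).symm i))).getD (Fintype.equivFin M.K k).val [] = g k := by
    intro g
    rw [List.getD_eq_getElem _ _ (by simp)]
    simp
  exact key (fun k => (S k).map cd)

lemma qw_prog (c : M.Cfg) : qw (prog M tb) (sl M c.stk) = M.word c := by
  have h4 : par (prog M tb) 4 = cd M.qry := rfl
  have h5 : par (prog M tb) 5 = cd (M.qryΓ.symm true) := rfl
  unfold qw OTM.word
  rw [h4, h5, sl_getD, List.map_map]
  apply List.map_congr_left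
  intro a _
  rw [Function.comp_apply]
  have h : cd a = cd (M.qryΓ.symm true) ↔ M.qryΓ a = true := by
    rw [cd_inj.eq_iff, Equiv.eq_symm_apply]
  by_cases h1 : M.qryΓ a = true
  · rw [h1]
    simpa using h.2 h1
  · have h2 : M.qryΓ a = false := by simpa using h1
    rw [h2]
    simpa using fun h3 => h1 (h.1 h3)

lemma ini_prog (g : ℕ) (x a : W) (ha : tb.getD (lvl g x.length) [] = a.map bit) :
    ini g (prog M tb) x = cf M (M.init x a) := by
  have h1 : par (prog M tb) 1 = cd M.inp := rfl
  have h2 : par (prog M tb) 2 = cd (M.inpΓ.symm false) := rfl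
  have h3 : par (prog M tb) 3 = cd (M.inpΓ.symm true) := rfl
  have h6 : par (prog M tb) 6 = cd (some M.main, M.start) := rfl
  have h7 : par (prog M tb) 7 = Fintype.card M.K := rfl
  have h8 : par (prog M tb) 8 = cd M.adv := rfl
  have h9 : par (prog M tb) 9 = cd (M.advΓ.symm false) := rfl
  have h10 : par (prog M tb) 10 = cd (M.advΓ.symm true) := rfl
  have h11 : seg (prog M tb) (4 + lvl g x.length) = a.map bit := by
    rw [← ha]
    show (hdr M ++ tb).getD (4 + lvl g x.length) [] = _
    have : (hdr M).length = 4 := rfl
    rw [List.getD_append_right _ _ _ _ (by omega), this]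
    congr 1
    omega
  unfold ini
  rw [h1, h2, h3, h6, h7, h8, h9, h10, h11]
  show (_, _) = (cd (some M.main, M.start), sl M (Function.update (Function.update (fun _ => []) M.adv
    (a.map M.advΓ.symm)) M.inp (x.map M.inpΓ.symm)))
  congr 1
  unfold sl
  rw [← List.map_coe_finRange_eq_range, List.map_map]
  apply List.map_congr_left
  intro i _
  rw [Function.comp_apply]
  have key : ∀ k : M.K, (if cd k = cd M.inp then
      x.map (fun b => bif b then cd (M.inpΓ.symm true) else cd (M.inpΓ.symm false)) else
      if cd k = cd M.adv then (a.map bit).map (fun a => ncase a (cd (M.advΓ.symm false))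
        (fun _ => cd (M.advΓ.symm true))) else []) =
      ((Function.update (Function.update (fun _ => []) M.adv (a.map M.advΓ.symm)) M.inp
        (x.map M.inpΓ.symm) : ∀ k, List (M.Γ k)) k).map cd := by
    intro k
    by_cases hk : k = M.inp
    · subst hk
      rw [if_pos rfl, update_self, List.map_map]
      apply List.map_congr_left
      intro b _
      cases b <;> rfl
    · rw [if_neg (fun h => hk (cd_inj h)), update_of_ne hk]
      by_cases hk2 : k = M.adv
      · subst hk2
        rw [if_pos rfl, update_self, List.map_map, List.map_map]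
        apply List.map_congr_left
        intro b _
        cases b <;> rfl
      · rw [if_neg (fun h => hk2 (cd_inj h)), update_of_ne hk2]
        rfl
  have h12 := key ((Fintype.equivFin M.K).symm i)
  have h13 : cd ((Fintype.equivFin M.K).symm i) = i.val := by
    unfold cd
    rw [Equiv.apply_symm_apply]
  rw [h13] at h12
  exact h12

end Pool.Agent.Helper82.SR
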